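import Pool.Agent.H8.TS.Fin

/-!
# Over cofinite sets the values of all words are dependent

`3 ζ(4) = 4 ζ(2,2)`.
-/

set_option autoImplicit false

open Set Filter Topology

namespace Pool.Agent.H8.TS

theorem Z_one_letter (k : ℕ) (m : ℕ) :
    Z [k] (univ ∩ Iio m) = ∑ n ∈ Finset.range m, ((n : ℝ) ^ k)⁻¹ := by
  rw [Z]
  rw [tsum_eq_sum (s := Finset.range m)]
  · refine Finset.sum_congr rfl fun n hn => ?_
    rw [Finset.mem_range] at hn
    rw [indicator_of_mem (show n ∈ univ ∩ Iio m from ⟨mem_univ _, hn⟩)]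
    simp [Z]
  · intro n hn
    rw [Finset.mem_range] at hn
    exact indicator_of_notMem (fun h => hn h.2) _

theorem sq_sum (a : ℕ → ℝ) (N : ℕ) : (∑ m ∈ Finset.range N, a m) ^ 2 =
    ∑ m ∈ Finset.range N, a m ^ 2 +
      2 * ∑ m ∈ Finset.range N, a m * ∑ n ∈ Finset.range m, a n := by
  induction N with
  | zero => simp
  | succ N ih =>
    rw [Finset.sum_range_succ, Finset.sum_range_succ, Finset.sum_range_succ, add_sq, ih]
    ring

theorem three_four : 3 * Z [4] univ = 4 * Z [2, 2] univ := by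
  have h2 : HasSum (fun n : ℕ => ((n : ℝ) ^ 2)⁻¹) (Real.pi ^ 2 / 6) := by
    simpa [one_div] using hasSum_zeta_two
  have h4 : HasSum (fun n : ℕ => ((n : ℝ) ^ 4)⁻¹) (Real.pi ^ 4 / 90) := by
    simpa [one_div] using hasSum_zeta_four
  have hZ4 : Z [4] univ = Real.pi ^ 4 / 90 := by
    rw [Z, ← h4.tsum_eq]
    exact tsum_congr fun m => by simp [Z]
  have hbig : Big [2, 2] := by
    intro a ha
    simp at ha
    omega
  have hs := Z_summable hbig univ
  have hZ22 : Tendsto (fun N : ℕ => ∑ m ∈ Finset.range N, ((m : ℝ) ^ 2)⁻¹ *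
      ∑ n ∈ Finset.range m, ((n : ℝ) ^ 2)⁻¹) atTop (𝓝 (Z [2, 2] univ)) := by
    have h1 := hs.hasSum.tendsto_sum_nat
    have h3 : ∀ m : ℕ, (univ : Set ℕ).indicator
        (fun m => ((m : ℝ) ^ 2)⁻¹ * Z [2] (univ ∩ Iio m)) m =
        ((m : ℝ) ^ 2)⁻¹ * ∑ n ∈ Finset.range m, ((n : ℝ) ^ 2)⁻¹ := fun m => by
      rw [indicator_of_mem (mem_univ m), Z_one_letter]
    simp only [h3] at h1
    have h5 : Z [2, 2] univ = ∑' m : ℕ, ((m : ℝ) ^ 2)⁻¹ * ∑ n ∈ Finset.range m, ((n : ℝ) ^ 2)⁻¹ := by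
      rw [Z]
      exact tsum_congr h3
    rw [h5]
    exact h1
  have h6 : Tendsto (fun N : ℕ => (∑ m ∈ Finset.range N, ((m : ℝ) ^ 2)⁻¹) ^ 2) atTop
      (𝓝 ((Real.pi ^ 2 / 6) ^ 2)) := h2.tendsto_sum_nat.pow 2
  have h7 : Tendsto (fun N : ℕ => ∑ m ∈ Finset.range N, (((m : ℝ) ^ 2)⁻¹) ^ 2) atTop
      (𝓝 (Real.pi ^ 4 / 90)) := by
    have h8 := h4.tendsto_sum_nat
    refine h8.congr fun N => Finset.sum_congr rfl fun m _ => ?_
    rw [← inv_pow, ← inv_pow]
    ring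
  have h9 := h7.add (hZ22.const_mul 2)
  have h10 : ∀ N : ℕ, (∑ m ∈ Finset.range N, (((m : ℝ) ^ 2)⁻¹) ^ 2) +
      2 * (∑ m ∈ Finset.range N, ((m : ℝ) ^ 2)⁻¹ * ∑ n ∈ Finset.range m, ((n : ℝ) ^ 2)⁻¹) =
      (∑ m ∈ Finset.range N, ((m : ℝ) ^ 2)⁻¹) ^ 2 := fun N => (sq_sum _ N).symm
  have h11 := tendsto_nhds_unique (h9.congr h10) h6
  rw [hZ4]
  nlinarith [h11]

/-- Over cofinite sets the values of all words are dependent. -/
theorem dependent (K : Subfield ℂ) {A : Set ℕ} (hA : Aᶜ.Finite) :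
    ¬ LinearIndependent K (fun w : {w : List ℕ | Big w} => (Z w.1 A : ℂ)) := by
  have hfin : (symmDiff A univ).Finite := by
    refine hA.subset fun x hx => ?_
    rw [mem_symmDiff] at hx
    rcases hx with ⟨_, h⟩ | ⟨_, h⟩
    · exact absurd (mem_univ x) h
    · exact h
  rw [li_iff K (W := {w : List ℕ | Big w}) (fun w hw => hw) (fun w hw i => Big.take hw i) hfin]
  intro h
  have h4 : Big [4] := by intro a ha; simp at ha; omega
  have h22 : Big [2, 2] := by intro a ha; simp at ha; omega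
  set x : {w : List ℕ | Big w} := ⟨[4], h4⟩
  set y : {w : List ℕ | Big w} := ⟨[2, 2], h22⟩
  have hxy : x ≠ y := fun h => by
    have := congrArg Subtype.val h
    simp [x, y] at this
  rw [linearIndependent_iff] at h
  have h1 := h (Finsupp.single x 3 - Finsupp.single y 4) (by
    rw [map_sub, Finsupp.linearCombination_single, Finsupp.linearCombination_single]
    have h2 : (3 : K) • (Z x.1 univ : ℂ) = ((3 * Z [4] univ : ℝ) : ℂ) := by
      push_cast
      rfl
    have h3 : (4 : K) • (Z y.1 univ : ℂ) = ((4 * Z [2, 2] univ : ℝ) : ℂ) := by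
      push_cast
      rfl
    rw [h2, h3, three_four, sub_self])
  have h5 := DFunLike.congr_fun h1 x
  rw [Finsupp.sub_apply, Finsupp.single_eq_same, Finsupp.single_apply, if_neg hxy.symm,
    Finsupp.zero_apply, sub_zero] at h5
  norm_num at h5

end Pool.Agent.H8.TS
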