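import Pool.Agent.H8.TS.Count

/-!
# Infinite sets which grow fast enough
-/

set_option autoImplicit false

open Set Filter Topology

namespace Pool.Agent.H8.TS

/-- Linear combinations are Lipschitz. -/
theorem F_lip (s : Finset (List ℕ)) (c : List ℕ → ℂ) (hs : ∀ w ∈ s, Big w) : ∃ C : ℝ, 0 ≤ C ∧
    ∀ A A' : Set ℕ, ‖F s c A - F s c A'‖ ≤ C * P 2 (symmDiff A A') := by
  have h1 : ∀ w : List ℕ, ∃ C : ℝ, 0 ≤ C ∧ (w ∈ s → ∀ A A' : Set ℕ,
      ‖c w * (Z w A : ℂ) - c w * (Z w A' : ℂ)‖ ≤ C * P 2 (symmDiff A A')) := by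
    intro w
    by_cases hw : w ∈ s
    · obtain ⟨C, hC, h⟩ := Z_lip w (hs w hw)
      refine ⟨‖c w‖ * C, by positivity, fun _ A A' => ?_⟩
      rw [← mul_sub, norm_mul, ← Complex.ofReal_sub, Complex.norm_real, Real.norm_eq_abs, mul_assoc]
      exact mul_le_mul_of_nonneg_left (h A A') (norm_nonneg _)
    · exact ⟨0, le_rfl, fun h => absurd h hw⟩
  choose C hC h using h1
  refine ⟨∑ w ∈ s, C w, Finset.sum_nonneg fun w _ => hC w, fun A A' => ?_⟩
  rw [F, F, ← Finset.sum_sub_distrib, Finset.sum_mul]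
  exact norm_sum_le_of_le s fun w hw => h w hw A A'

section Fast

variable (K : Subfield ℂ) (B : Set ℕ)

/-- The combination given by a finitely supported function. -/
noncomputable def L (c : List ℕ →₀ K) (A : Set ℕ) : ℂ := F c.support (fun w => (c w : ℂ)) A

theorem symmDiff_symmDiff_left (B D D' : Set ℕ) :
    symmDiff (symmDiff B D) (symmDiff B D') = symmDiff D D' := by
  ext x
  simp only [mem_symmDiff]
  tauto

/-- The growth function: combinations with small codes over finite changes of `B` vanish or are not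
very small. -/
theorem exists_growth [Countable K] : ∃ (enc : (List ℕ →₀ K) → ℕ) (φ : ℕ → ℕ),
    (∀ N, 1 ≤ φ N) ∧ ∀ (c : List ℕ →₀ K) (C : ℝ),
      (∀ w ∈ c.support, Big w) →
      (∀ A A' : Set ℕ, ‖L K c A - L K c A'‖ ≤ C * P 2 (symmDiff A A')) →
      ∃ N₀ : ℕ, ∀ N : ℕ, N₀ ≤ N → enc c ≤ N → ∀ X : Set ℕ, X ⊆ Iic N →
        L K c (symmDiff B X) = 0 ∨ 2 * C / φ N < ‖L K c (symmDiff B X)‖ := by
  classical
  obtain ⟨enc, henc⟩ := Countable.exists_injective_nat (List ℕ →₀ K)
  have h1 : ∀ N : ℕ, ∃ M : ℕ, 1 ≤ M ∧ ∀ c ∈ {c : List ℕ →₀ K | enc c ≤ N}, ∀ X ∈ {X : Set ℕ | X ⊆ Iic N},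
      L K c (symmDiff B X) = 0 ∨ 2 * (N : ℝ) / M < ‖L K c (symmDiff B X)‖ := by
    intro N
    have hf1 : {c : List ℕ →₀ K | enc c ≤ N}.Finite :=
      (finite_Iic N).preimage henc.injOn
    have hf2 : {X : Set ℕ | X ⊆ Iic N}.Finite := (finite_Iic N).finite_subsets
    have h2 : ∀ᶠ M : ℕ in atTop, ∀ c ∈ {c : List ℕ →₀ K | enc c ≤ N},
        ∀ X ∈ {X : Set ℕ | X ⊆ Iic N},
        L K c (symmDiff B X) = 0 ∨ 2 * (N : ℝ) / M < ‖L K c (symmDiff B X)‖ := by
      rw [hf1.eventually_all]
      intro c _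
      rw [hf2.eventually_all]
      intro X _
      by_cases h0 : L K c (symmDiff B X) = 0
      · exact Eventually.of_forall fun _ => Or.inl h0
      · have h3 : Tendsto (fun M : ℕ => 2 * (N : ℝ) / M) atTop (𝓝 0) :=
          tendsto_const_div_atTop_nhds_zero_nat _
        filter_upwards [h3.eventually (gt_mem_nhds (norm_pos_iff.2 h0))] with M hM
        exact Or.inr hM
    obtain ⟨M, hM1, hM2⟩ := ((eventually_ge_atTop 1).and h2).exists
    exact ⟨M, hM1, hM2⟩
  choose φ hφ1 hφ using h1
  refine ⟨enc, φ, hφ1, fun c C hc hC => ⟨⌈C⌉₊, fun N hN hencN X hX => ?_⟩⟩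
  rcases hφ N c hencN X hX with h | h
  · exact Or.inl h
  · refine Or.inr (lt_of_le_of_lt ?_ h)
    have h2 : C ≤ N := (Nat.le_ceil C).trans (by exact_mod_cast hN)
    have h3 : (0 : ℝ) < φ N := by exact_mod_cast hφ1 N
    gcongr

/-- The power sums of sets which differ at one point. -/
theorem P_single {k : ℕ} (hk : 2 ≤ k) {A A' : Set ℕ} {d : ℕ} (h : symmDiff A A' = {d}) :
    |P k A - P k A'| = ((d : ℝ) ^ k)⁻¹ := by
  unfold P
  rw [← (summable_ind hk A).tsum_sub (summable_ind hk A')]
  have hiff : ∀ m, m ≠ d → (m ∈ A ↔ m ∈ A') := by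
    intro m hm
    have h1 : m ∉ symmDiff A A' := by rw [h]; simpa using hm
    rw [mem_symmDiff] at h1
    tauto
  rw [tsum_eq_single d]
  · have h1 : d ∈ symmDiff A A' := by rw [h]; rfl
    have hp := pow_nonneg' k d
    rw [mem_symmDiff] at h1
    rcases h1 with ⟨h1, h2⟩ | ⟨h1, h2⟩
    · rw [indicator_of_mem h1, indicator_of_notMem h2, sub_zero, abs_of_nonneg hp]
    · rw [indicator_of_mem h1, indicator_of_notMem h2, zero_sub, abs_neg, abs_of_nonneg hp]
  · intro m hm
    by_cases hA : m ∈ A
    · rw [indicator_of_mem hA, indicator_of_mem ((hiff m hm).1 hA), sub_self]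
    · rw [indicator_of_notMem hA, indicator_of_notMem (fun h => hA ((hiff m hm).2 h)), sub_self]

theorem P_two_single_le {S : Set ℕ} {d : ℕ} (h : S = {d}) : P 2 S = ((d : ℝ) ^ 2)⁻¹ := by
  subst h
  unfold P
  rw [tsum_eq_single d]
  · rw [indicator_of_mem (mem_singleton d)]
  · intro m hm
    exact indicator_of_notMem (by simpa using hm) _

/-- Sets which grow fast enough: all nonzero combinations are not zero. -/
theorem exists_fast [Countable K] : ∃ φ : ℕ → ℕ, ∀ D : Set ℕ, D.Infinite →
    (∀ d ∈ D, ∀ d' ∈ D, d < d' → φ d ≤ d') →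
    ∀ (n : ℕ) (c : List ℕ →₀ K), c ≠ 0 → (∀ w ∈ c.support, Big w ∧ w.length < n) →
      L K c (symmDiff B D) ≠ 0 := by
  classical
  obtain ⟨enc, φ, hφ1, hφ⟩ := exists_growth K B
  refine ⟨φ, fun D hD hDφ n => ?_⟩
  induction n with
  | zero =>
    intro c hc hs
    obtain ⟨w, hw⟩ := Finsupp.support_nonempty_iff.2 hc
    exact absurd (hs w hw).2 (Nat.not_lt_zero _)
  | succ n ih =>
    intro c hc hs
    by_cases hne : ∃ k, ∃ l, k :: l ∈ c.support
    · intro hzero
      obtain ⟨l₀, hl₀⟩ := Nat.find_spec hne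
      set k := Nat.find hne with hkdef
      have hk : 2 ≤ k := (hs _ hl₀).1.head
      obtain ⟨C, hC, hmain⟩ := F_main (k := k) c.support (fun w => (c w : ℂ))
        (fun w hw => (hs w hw).1) (fun k' l h1 _ => Nat.find_min' hne ⟨l, h1⟩)
      set c' : List ℕ →₀ K := Finsupp.comapDomain (List.cons k) c (List.cons_injective.injOn)
        with hc'
      have hsupp : c'.support = drop k c.support := rfl
      have hL' : ∀ A, L K c' A = F (drop k c.support) (fun l => (c (k :: l) : ℂ)) A := fun A => rfl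
      have hc'0 : c' ≠ 0 := by
        intro h0
        have h1 : c' l₀ = 0 := by rw [h0]; rfl
        exact Finsupp.mem_support_iff.1 hl₀ h1
      have hs' : ∀ l ∈ c'.support, Big l ∧ l.length < n := by
        intro l hl
        rw [hsupp] at hl
        have h1 := hs _ (mem_drop.1 hl)
        refine ⟨h1.1.tail, ?_⟩
        have h2 := h1.2
        rw [List.length_cons] at h2
        omega
      have hG := ih c' hc'0 hs'
      obtain ⟨C₁, hC₁, hlip⟩ := F_lip c.support (fun w => (c w : ℂ)) (fun w hw => (hs w hw).1)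
      obtain ⟨C₂, hC₂, hlip'⟩ := F_lip c'.support (fun w => (c' w : ℂ)) (fun w hw => (hs' w hw).1)
      obtain ⟨N₀, hN₀⟩ := hφ c C₁ (fun w hw => (hs w hw).1) hlip
      -- the values over the initial segments vanish
      have hcut : ∀ d ∈ D, N₀ ≤ d → enc c ≤ d → L K c (symmDiff B (D ∩ Iic d)) = 0 := by
        intro d hd h1 h2
        rcases hN₀ d h1 h2 (D ∩ Iic d) inter_subset_right with h | h
        · exact h
        · exfalso
          have h3 := hlip (symmDiff B (D ∩ Iic d)) (symmDiff B D)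
          rw [symmDiff_symmDiff_left] at h3
          have h4 : symmDiff (D ∩ Iic d) D ⊆ Ici (φ d) := by
            intro x hx
            rw [mem_symmDiff] at hx
            rcases hx with ⟨⟨h5, _⟩, h6⟩ | ⟨h5, h6⟩
            · exact absurd h5 h6
            · refine hDφ d hd x h5 ?_
              by_contra hle
              exact h6 ⟨h5, not_lt.1 hle⟩
          have h5 := (P_mono le_rfl h4).trans (P_Ici_le (hφ1 d))
          have h6 : ‖L K c (symmDiff B (D ∩ Iic d))‖ ≤ C₁ * (2 / φ d) := by
            have h7 : L K c (symmDiff B D) = 0 := hzero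
            have h8 : F c.support (fun w => (c w : ℂ)) (symmDiff B D) = 0 := h7
            rw [h8, sub_zero] at h3
            exact h3.trans (by gcongr)
          have h7 : C₁ * (2 / (φ d : ℝ)) = 2 * C₁ / φ d := by ring
          rw [h7] at h6
          exact absurd h (not_lt.2 h6)
      -- the leading coefficient is small
      have hsmall : ∀ N : ℕ, ∃ d : ℕ, N ≤ d ∧ 1 ≤ d ∧
          ‖L K c' (symmDiff B D)‖ ≤ (C + 2 * C₂) / d := by
        intro N
        obtain ⟨d, hd, hdN⟩ := hD.exists_gt (max N (max N₀ (enc c)))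
        have hex : ∃ x, x ∈ D ∧ d < x := by
          obtain ⟨x, hx, hx'⟩ := hD.exists_gt d
          exact ⟨x, hx, hx'⟩
        obtain ⟨hx1, hx2⟩ := Nat.find_spec hex
        set x := Nat.find hex with hxdef
        have hNd : N < d := lt_of_le_of_lt (le_max_left _ _) hdN
        have hN0d : N₀ ≤ d := ((le_max_left _ _).trans (le_max_right _ _)).trans hdN.le
        have hed : enc c ≤ d := ((le_max_right _ _).trans (le_max_right _ _)).trans hdN.le
        have hx0 : 1 ≤ x := by omega
        have hz1 := hcut d hd hN0d hed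
        have hz2 := hcut x hx1 (hN0d.trans hx2.le) (hed.trans hx2.le)
        have hsd : symmDiff (symmDiff B (D ∩ Iic x)) (symmDiff B (D ∩ Iic d)) = {x} := by
          rw [symmDiff_symmDiff_left]
          ext y
          rw [mem_symmDiff]
          simp only [mem_inter_iff, mem_Iic, mem_singleton_iff]
          constructor
          · rintro (⟨⟨h1, h2⟩, h3⟩ | ⟨⟨h1, h2⟩, h3⟩)
            · have h4 : d < y := by
                by_contra hc
                exact h3 ⟨h1, not_lt.1 hc⟩
              have h5 : x ≤ y := Nat.find_min' hex ⟨h1, h4⟩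
              omega
            · exact absurd ⟨h1, by omega⟩ h3
          · rintro rfl
            exact Or.inl ⟨⟨hx1, le_rfl⟩, fun h => absurd h.2 (not_le.2 hx2)⟩
        have hag : ∀ m < x, m ∈ symmDiff B (D ∩ Iic x) ↔ m ∈ symmDiff B (D ∩ Iic d) := by
          intro m hm
          have h1 : m ∉ symmDiff (symmDiff B (D ∩ Iic x)) (symmDiff B (D ∩ Iic d)) := by
            rw [hsd, mem_singleton_iff]
            omega
          rw [mem_symmDiff (a := m) (s := symmDiff B (D ∩ Iic x))] at h1
          constructor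
          · intro h
            by_contra hc
            exact h1 (Or.inl ⟨h, hc⟩)
          · intro h
            by_contra hc
            exact h1 (Or.inr ⟨h, hc⟩)
        have h1 := hmain _ _ x hx0 hag
        have h2 : F c.support (fun w => (c w : ℂ)) (symmDiff B (D ∩ Iic x)) = 0 := hz2
        have h3 : F c.support (fun w => (c w : ℂ)) (symmDiff B (D ∩ Iic d)) = 0 := hz1
        rw [h2, h3, sub_zero, zero_sub, norm_neg, norm_mul, Complex.norm_real, Real.norm_eq_abs,
          P_single hk hsd, P_two_single_le hsd, ← hL'] at h1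
        have hx' : (0 : ℝ) < x := by exact_mod_cast hx0
        have hxk : (0 : ℝ) < ((x : ℝ) ^ k)⁻¹ := by positivity
        have h4 : ‖L K c' (symmDiff B (D ∩ Iic x))‖ ≤ C / x := by
          have h5 : C * ((x : ℝ) * ((x : ℝ) ^ k)⁻¹ * ((x : ℝ) ^ 2)⁻¹) = C / x * ((x : ℝ) ^ k)⁻¹ := by
            field_simp
          rw [h5] at h1
          exact le_of_mul_le_mul_right h1 hxk
        have h5 := hlip' (symmDiff B D) (symmDiff B (D ∩ Iic x))
        rw [symmDiff_symmDiff_left] at h5
        have h6 : symmDiff D (D ∩ Iic x) ⊆ Ici x := by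
          intro y hy
          rw [mem_symmDiff] at hy
          rcases hy with ⟨h7, h8⟩ | ⟨⟨h7, _⟩, h8⟩
          · rw [mem_Ici]
            by_contra hle
            exact h8 ⟨h7, (not_le.1 hle).le⟩
          · exact absurd h7 h8
        have h7 := (P_mono le_rfl h6).trans (P_Ici_le hx0)
        have h8 : ‖L K c' (symmDiff B D) - L K c' (symmDiff B (D ∩ Iic x))‖ ≤ C₂ * (2 / x) :=
          h5.trans (by gcongr)
        refine ⟨x, by omega, hx0, ?_⟩
        calc ‖L K c' (symmDiff B D)‖ ≤ ‖L K c' (symmDiff B (D ∩ Iic x))‖ +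
              ‖L K c' (symmDiff B D) - L K c' (symmDiff B (D ∩ Iic x))‖ := norm_le_insert' _ _
          _ ≤ C / x + C₂ * (2 / x) := add_le_add h4 h8
          _ = (C + 2 * C₂) / x := by ring
      have hpos : 0 < ‖L K c' (symmDiff B D)‖ := norm_pos_iff.2 hG
      obtain ⟨N, hN⟩ := exists_nat_gt ((C + 2 * C₂) / ‖L K c' (symmDiff B D)‖)
      obtain ⟨d, hdN, hd1, hd⟩ := hsmall N
      have hd' : (0 : ℝ) < d := by exact_mod_cast hd1
      rw [le_div_iff₀ hd'] at hd
      rw [div_lt_iff₀ hpos] at hN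
      have h9 : (N : ℝ) ≤ d := by exact_mod_cast hdN
      nlinarith
    · push Not at hne
      obtain ⟨w, hw⟩ := Finsupp.support_nonempty_iff.2 hc
      have hw0 : w = [] := by
        cases w with
        | nil => rfl
        | cons k l => exact absurd hw (hne k l)
      subst hw0
      have h2 : L K c (symmDiff B D) = (c [] : ℂ) := by
        unfold L F
        rw [Finset.sum_eq_single_of_mem [] hw]
        · simp [Z]
        · intro w hw' hwn
          cases w with
          | nil => exact absurd rfl hwn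
          | cons k l => exact absurd hw' (hne k l)
      rw [h2]
      intro h0
      exact (Finsupp.mem_support_iff.1 hw) (by exact_mod_cast h0)

/-- Sets which grow fast enough: linear independence. -/
theorem exists_fast_li [Countable K] : ∃ φ : ℕ → ℕ, ∀ D : Set ℕ, D.Infinite →
    (∀ d ∈ D, ∀ d' ∈ D, d < d' → φ d ≤ d') →
    LinearIndependent K (fun w : {w : List ℕ // Big w} => (Z w.1 (symmDiff B D) : ℂ)) := by
  classical
  obtain ⟨φ, hφ⟩ := exists_fast K B
  refine ⟨φ, fun D hD hDφ => ?_⟩
  rw [linearIndependent_iff]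
  intro c hc
  by_contra hc0
  set c' : List ℕ →₀ K := c.embDomain (Function.Embedding.subtype _) with hc'
  have hc'0 : c' ≠ 0 := by
    rw [hc', Ne, Finsupp.embDomain_eq_zero]
    exact hc0
  have hsupp : c'.support = c.support.map (Function.Embedding.subtype _) :=
    Finsupp.support_embDomain _ _
  have hbig : ∀ w ∈ c'.support, Big w := by
    intro w hw
    rw [hsupp, Finset.mem_map] at hw
    obtain ⟨x, -, rfl⟩ := hw
    exact x.2
  refine hφ D hD hDφ (c'.support.sup List.length + 1) c' hc'0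
    (fun w hw => ⟨hbig w hw, Nat.lt_succ_of_le (Finset.le_sup (f := List.length) hw)⟩) ?_
  rw [← hc, Finsupp.linearCombination_apply, Finsupp.sum, L, F, hsupp, Finset.sum_map]
  refine Finset.sum_congr rfl fun x _ => ?_
  rw [hc', Finsupp.embDomain_apply_self]
  rfl

end Fast

end Pool.Agent.H8.TS
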