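import Pool.Agent.H8.TS.Z

/-!
# Linear combinations of multiple zeta values over sets

`F s c A` is the sum of `c w * Z w A` over the words `w` of the finite set `s`.
-/

set_option autoImplicit false

open Set

namespace Pool.Agent.H8.TS

/-- A linear combination of values. -/
noncomputable def F (s : Finset (List ℕ)) (c : List ℕ → ℂ) (A : Set ℕ) : ℂ :=
  ∑ w ∈ s, c w * (Z w A : ℂ)

/-- The words `l` with `k :: l ∈ s`. -/
noncomputable def drop (k : ℕ) (s : Finset (List ℕ)) : Finset (List ℕ) :=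
  s.preimage (List.cons k) (List.cons_injective.injOn)

theorem mem_drop {k : ℕ} {s : Finset (List ℕ)} {l : List ℕ} : l ∈ drop k s ↔ k :: l ∈ s := by
  unfold drop
  exact Finset.mem_preimage

/-- The coefficient of the leading difference. -/
theorem F_drop (k : ℕ) (s : Finset (List ℕ)) (c : List ℕ → ℂ) (A : Set ℕ) :
    F (drop k s) (fun l => c (k :: l)) A =
      ∑ w ∈ s, if w.head? = some k then c w * (Z w.tail A : ℂ) else 0 := by
  rw [← Finset.sum_filter]
  unfold F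
  refine Finset.sum_bij' (fun l _ => k :: l) (fun w _ => w.tail) ?_ ?_ ?_ ?_ ?_
  · intro l hl
    rw [Finset.mem_filter]
    exact ⟨mem_drop.1 hl, by simp⟩
  · intro w hw
    rw [Finset.mem_filter] at hw
    cases w with
    | nil => simp at hw
    | cons a l =>
      have : a = k := by simpa using hw.2
      subst this
      exact mem_drop.2 (by simpa using hw.1)
  · intro l _; simp
  · intro w hw
    rw [Finset.mem_filter] at hw
    cases w with
    | nil => simp at hw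
    | cons a l =>
      have : a = k := by simpa using hw.2
      subst this
      simp
  · intro l _; simp

theorem err_anti {k k' e : ℕ} (hk : k + 1 ≤ k') (he : 1 ≤ e) :
    (e : ℝ) ^ 2 * ((e : ℝ) ^ k')⁻¹ ≤ (e : ℝ) * ((e : ℝ) ^ k)⁻¹ := by
  have h1 : (1 : ℝ) ≤ e := by exact_mod_cast he
  have h2 : ((e : ℝ) ^ k')⁻¹ ≤ ((e : ℝ) ^ (k + 1))⁻¹ :=
    inv_anti₀ (by positivity) (pow_le_pow_right₀ h1 hk)
  calc (e : ℝ) ^ 2 * ((e : ℝ) ^ k')⁻¹ ≤ (e : ℝ) ^ 2 * ((e : ℝ) ^ (k + 1))⁻¹ := by gcongr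
    _ = (e : ℝ) * ((e : ℝ) ^ k)⁻¹ := by
        field_simp
        try ring

/-- One term of the expansion. -/
theorem term_bound {k : ℕ} (w : List ℕ) (hw : Big w) (a : ℂ)
    (hmin : ∀ k' l, w = k' :: l → a ≠ 0 → k ≤ k') : ∃ C : ℝ, 0 ≤ C ∧
    ∀ (A A' : Set ℕ) (e : ℕ), 1 ≤ e → (∀ m < e, m ∈ A ↔ m ∈ A') →
      ‖a * (Z w A : ℂ) - a * (Z w A' : ℂ) -
        (if w.head? = some k then a * (Z w.tail A : ℂ) else 0) * ((P k A - P k A' : ℝ) : ℂ)‖ ≤
        C * ((e : ℝ) * ((e : ℝ) ^ k)⁻¹ * P 2 (symmDiff A A')) := by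
  by_cases ha : a = 0
  · refine ⟨0, le_rfl, fun A A' e _ _ => ?_⟩
    subst ha
    simp
  cases w with
  | nil => exact ⟨0, le_rfl, fun A A' e _ _ => by simp [Z]⟩
  | cons k' l =>
    have hkk := hmin k' l rfl ha
    obtain ⟨C, hC, h⟩ := Z_main hw
    by_cases hk : k' = k
    · subst hk
      refine ⟨‖a‖ * C, by positivity, fun A A' e he hag => ?_⟩
      have h1 := h A A' e he hag
      have h2 : a * (Z (k' :: l) A : ℂ) - a * (Z (k' :: l) A' : ℂ) -
          (if (k' :: l).head? = some k' then a * (Z (k' :: l).tail A : ℂ) else 0) *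
            ((P k' A - P k' A' : ℝ) : ℂ) =
          a * ((Z (k' :: l) A - Z (k' :: l) A' - Z l A * (P k' A - P k' A') : ℝ) : ℂ) := by
        simp only [List.head?_cons, if_true, List.tail_cons]
        push_cast
        ring
      rw [h2, norm_mul, Complex.norm_real, Real.norm_eq_abs, mul_assoc]
      gcongr
    · have hlt : k + 1 ≤ k' := by omega
      refine ⟨‖a‖ * (C + 2 ^ l.length), by positivity, fun A A' e he hag => ?_⟩
      have h1 := h A A' e he hag
      have he' : (1 : ℝ) ≤ e := by exact_mod_cast he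
      have hne : (k' :: l).head? ≠ some k := by simpa using hk
      rw [if_neg hne, zero_mul, sub_zero, ← mul_sub, norm_mul, ← Complex.ofReal_sub,
        Complex.norm_real, Real.norm_eq_abs, mul_assoc]
      refine mul_le_mul_of_nonneg_left ?_ (norm_nonneg a)
      have hk' := hw.head
      have hS : ∀ m ∈ symmDiff A A', e ≤ m := by
        intro m hm
        by_contra hc
        rw [mem_symmDiff] at hm
        have := hag m (not_le.1 hc)
        tauto
      have h3 : P k' (symmDiff A A') ≤ (e : ℝ) * ((e : ℝ) ^ k)⁻¹ * P 2 (symmDiff A A') := by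
        refine (P_le_of_ge hk' he hS).trans ?_
        have := err_anti hlt he
        have h5 := P_nonneg 2 (symmDiff A A')
        gcongr
      have h4 : (e : ℝ) * ((e : ℝ) ^ k')⁻¹ * P 2 (symmDiff A A') ≤
          (e : ℝ) * ((e : ℝ) ^ k)⁻¹ * P 2 (symmDiff A A') := by
        have h5 := P_nonneg 2 (symmDiff A A')
        have h6 : ((e : ℝ) ^ k')⁻¹ ≤ ((e : ℝ) ^ k)⁻¹ :=
          inv_anti₀ (by positivity) (pow_le_pow_right₀ he' hkk)
        gcongr
      have h5 := P_sub_le hk' A A'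
      have h6 := Z_bd l hw.tail A
      have h7 : |Z l A * (P k' A - P k' A')| ≤ 2 ^ l.length *
          ((e : ℝ) * ((e : ℝ) ^ k)⁻¹ * P 2 (symmDiff A A')) := by
        rw [abs_mul, abs_of_nonneg h6.1]
        exact mul_le_mul h6.2 (h5.trans h3) (abs_nonneg _) (by positivity)
      have h8 : |Z (k' :: l) A - Z (k' :: l) A'| ≤
          |Z (k' :: l) A - Z (k' :: l) A' - Z l A * (P k' A - P k' A')| +
            |Z l A * (P k' A - P k' A')| := by
        have := abs_add_le (Z (k' :: l) A - Z (k' :: l) A' - Z l A * (P k' A - P k' A'))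
          (Z l A * (P k' A - P k' A'))
        rwa [sub_add_cancel] at this
      have h9 : C * ((e : ℝ) * ((e : ℝ) ^ k')⁻¹ * P 2 (symmDiff A A')) ≤
          C * ((e : ℝ) * ((e : ℝ) ^ k)⁻¹ * P 2 (symmDiff A A')) := by gcongr
      calc |Z (k' :: l) A - Z (k' :: l) A'| ≤ _ := h8
        _ ≤ C * ((e : ℝ) * ((e : ℝ) ^ k)⁻¹ * P 2 (symmDiff A A')) +
            2 ^ l.length * ((e : ℝ) * ((e : ℝ) ^ k)⁻¹ * P 2 (symmDiff A A')) :=
          add_le_add (h1.trans h9) h7
        _ = _ := by ring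

/-- The expansion of a linear combination. -/
theorem F_main {k : ℕ} (s : Finset (List ℕ)) (c : List ℕ → ℂ) (hs : ∀ w ∈ s, Big w)
    (hmin : ∀ k' l, k' :: l ∈ s → c (k' :: l) ≠ 0 → k ≤ k') : ∃ C : ℝ, 0 ≤ C ∧
    ∀ (A A' : Set ℕ) (e : ℕ), 1 ≤ e → (∀ m < e, m ∈ A ↔ m ∈ A') →
      ‖F s c A - F s c A' - F (drop k s) (fun l => c (k :: l)) A * ((P k A - P k A' : ℝ) : ℂ)‖ ≤
        C * ((e : ℝ) * ((e : ℝ) ^ k)⁻¹ * P 2 (symmDiff A A')) := by
  have h1 : ∀ w : List ℕ, ∃ C : ℝ, 0 ≤ C ∧ (w ∈ s →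
      ∀ (A A' : Set ℕ) (e : ℕ), 1 ≤ e → (∀ m < e, m ∈ A ↔ m ∈ A') →
      ‖c w * (Z w A : ℂ) - c w * (Z w A' : ℂ) -
        (if w.head? = some k then c w * (Z w.tail A : ℂ) else 0) * ((P k A - P k A' : ℝ) : ℂ)‖ ≤
        C * ((e : ℝ) * ((e : ℝ) ^ k)⁻¹ * P 2 (symmDiff A A'))) := by
    intro w
    by_cases hw : w ∈ s
    · obtain ⟨C, hC, h⟩ := term_bound (k := k) w (hs w hw) (c w)
        (fun k' l hw' ha => hmin k' l (hw' ▸ hw) (hw' ▸ ha))
      exact ⟨C, hC, fun _ => h⟩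
    · exact ⟨0, le_rfl, fun h => absurd h hw⟩
  choose C hC h using h1
  refine ⟨∑ w ∈ s, C w, Finset.sum_nonneg fun w _ => hC w, fun A A' e he hag => ?_⟩
  rw [F_drop, F, F, Finset.sum_mul, ← Finset.sum_sub_distrib, ← Finset.sum_sub_distrib,
    Finset.sum_mul]
  exact norm_sum_le_of_le s fun w hw => h w hw A A' e he hag

end Pool.Agent.H8.TS
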