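import Pool.Agent.H8.TS.Seq

/-!
# The exceptional set is countable
-/

set_option autoImplicit false

open Set

namespace Pool.Agent.H8.TS

/-- The set `B` changed at the places `e i`, `i ∈ J`. -/
def pert (B : Set ℕ) (e : ℕ → ℕ) (J : Set ℕ) : Set ℕ := symmDiff B (e '' J)

section Count

variable {e : ℕ → ℕ} {ρ : ℝ} {J₀ : ℕ} (B : Set ℕ)

theorem mem_pert_symmDiff (he : Function.Injective e) {J J' : Set ℕ} {m : ℕ} :
    m ∈ symmDiff (pert B e J) (pert B e J') ↔ ∃ i ∈ symmDiff J J', e i = m := by
  have h1 : m ∈ symmDiff (pert B e J) (pert B e J') ↔ ¬ (m ∈ e '' J ↔ m ∈ e '' J') := by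
    unfold pert
    simp only [mem_symmDiff]
    tauto
  rw [h1]
  constructor
  · intro h
    by_cases hJ : m ∈ e '' J
    · have hJ' : m ∉ e '' J' := fun h' => h ⟨fun _ => h', fun _ => hJ⟩
      obtain ⟨i, hi, rfl⟩ := hJ
      exact ⟨i, by rw [mem_symmDiff]; exact Or.inl ⟨hi, fun h' => hJ' ⟨i, h', rfl⟩⟩, rfl⟩
    · have hJ' : m ∈ e '' J' := by by_contra h'; exact h ⟨fun h => absurd h hJ, fun h => absurd h h'⟩
      obtain ⟨i, hi, rfl⟩ := hJ'
      exact ⟨i, by rw [mem_symmDiff]; exact Or.inr ⟨hi, fun h' => hJ ⟨i, h', rfl⟩⟩, rfl⟩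
  · rintro ⟨i, hi, rfl⟩ h
    rw [he.mem_set_image, he.mem_set_image] at h
    rw [mem_symmDiff] at hi
    tauto

theorem exists_differ (h : Sparse e ρ J₀) {J J' : Set ℕ} (hne : J ≠ J') :
    ∃ j, j ∈ symmDiff J J' ∧ Differ e (pert B e J) (pert B e J') j := by
  classical
  have h1 : ∃ j, j ∈ symmDiff J J' := by
    by_contra hc
    push Not at hc
    apply hne
    ext i
    have := hc i
    rw [mem_symmDiff] at this
    tauto
  refine ⟨Nat.find h1, Nat.find_spec h1, fun m hm => ?_, ?_⟩
  · obtain ⟨i, hi, rfl⟩ := (mem_pert_symmDiff B h.mono.injective).1 hm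
    exact ⟨i, Nat.find_min' h1 hi, rfl⟩
  · exact (mem_pert_symmDiff B h.mono.injective).2 ⟨_, Nat.find_spec h1, rfl⟩

/-- The zeros of a nonzero combination. -/
theorem countable_zeros (h : Sparse e ρ J₀) : ∀ (n : ℕ) (s : Finset (List ℕ)) (c : List ℕ → ℂ),
    (∀ w ∈ s, Big w ∧ w.length < n) → (∃ w ∈ s, c w ≠ 0) →
    {J : Set ℕ | F s c (pert B e J) = 0}.Countable := by
  classical
  intro n
  induction n with
  | zero =>
    rintro s c hs ⟨w, hw, -⟩
    exact absurd (hs w hw).2 (Nat.not_lt_zero _)
  | succ n ih =>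
    rintro s c hs ⟨w₀, hw₀, hc₀⟩
    by_cases hne : ∃ k, ∃ l, k :: l ∈ s ∧ c (k :: l) ≠ 0
    · obtain ⟨l₀, hl₀, hcl₀⟩ := Nat.find_spec hne
      set k := Nat.find hne with hkdef
      have hmin : ∀ k' l, k' :: l ∈ s → c (k' :: l) ≠ 0 → k ≤ k' := fun k' l h1 h2 =>
        Nat.find_min' hne ⟨l, h1, h2⟩
      have hk : 2 ≤ k := (hs _ hl₀).1.head
      obtain ⟨C, hC, hb⟩ := bound_of_eq h hk s c (fun w hw => (hs w hw).1) hmin
      have hG : {J : Set ℕ | F (drop k s) (fun l => c (k :: l)) (pert B e J) = 0}.Countable := by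
        refine ih (drop k s) _ (fun l hl => ?_) ⟨l₀, mem_drop.2 hl₀, hcl₀⟩
        have h1 := hs _ (mem_drop.1 hl)
        refine ⟨h1.1.tail, ?_⟩
        have h2 := h1.2
        rw [List.length_cons] at h2
        omega
      have hfin : ∀ N : ℕ, {J : Set ℕ | F s c (pert B e J) = 0 ∧
          1 / ((N : ℝ) + 1) ≤ ‖F (drop k s) (fun l => c (k :: l)) (pert B e J)‖}.Finite := by
        intro N
        set M : ℕ := max J₀ (⌈C * (N + 1)⌉₊ + 1) with hM
        refine Set.Finite.of_finite_image (f := fun J => J ∩ Iio M)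
          ((finite_Iio M).finite_subsets.subset ?_) ?_
        · rintro _ ⟨J, _, rfl⟩
          exact inter_subset_right
        · rintro J ⟨hJ, hJG⟩ J' ⟨hJ', -⟩ hJJ
          by_contra hJne
          obtain ⟨j, hj, hd⟩ := exists_differ B h hJne
          rcases lt_or_ge j M with hjM | hjM
          · have h1 : j ∈ J ∩ Iio M ↔ j ∈ J' ∩ Iio M := by
              have := hJJ
              simp only at this
              rw [this]
            simp only [mem_inter_iff, mem_Iio, hjM, and_true] at h1
            rw [mem_symmDiff] at hj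
            tauto
          · have h1 := hb _ _ j ((le_max_left _ _).trans hjM) hd (hJ.trans hJ'.symm)
            have h2 : (j : ℝ) ≤ e j := by exact_mod_cast h.mono.le_apply
            have h3 : C * (N + 1) < j := by
              have h4 : C * (N + 1) ≤ ⌈C * (N + 1)⌉₊ := Nat.le_ceil _
              have h5 : ((⌈C * (N + 1)⌉₊ + 1 : ℕ) : ℝ) ≤ j := by
                exact_mod_cast (le_max_right _ _).trans hjM
              push_cast at h5
              linarith
            have h6 : (0 : ℝ) < N + 1 := by positivity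
            have h7 : 1 / ((N : ℝ) + 1) * e j ≤ C := by
              have h8 : (0 : ℝ) ≤ e j := by positivity
              exact (mul_le_mul_of_nonneg_right hJG h8).trans h1
            rw [one_div, inv_mul_le_iff₀ h6] at h7
            nlinarith
      refine (hG.union (countable_iUnion fun N => (hfin N).countable)).mono fun J hJ => ?_
      by_cases hz : F (drop k s) (fun l => c (k :: l)) (pert B e J) = 0
      · exact Or.inl hz
      · right
        obtain ⟨N, hN⟩ := exists_nat_one_div_lt (norm_pos_iff.2 hz)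
        exact mem_iUnion.2 ⟨N, hJ, hN.le⟩
    · push Not at hne
      have hw : w₀ = [] := by
        cases w₀ with
        | nil => rfl
        | cons k l => exact absurd (hne k l hw₀) hc₀
      subst hw
      have h1 : {J : Set ℕ | F s c (pert B e J) = 0} = ∅ := by
        rw [eq_empty_iff_forall_notMem]
        intro J hJ
        apply hc₀
        have h2 : F s c (pert B e J) = c [] := by
          unfold F
          rw [Finset.sum_eq_single_of_mem [] hw₀]
          · simp [Z]
          · intro w hw hwn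
            cases w with
            | nil => exact absurd rfl hwn
            | cons k l => rw [hne k l hw, zero_mul]
        rw [← h2]
        exact hJ
      rw [h1]
      exact countable_empty

/-- The exceptional sets. -/
theorem countable_dep (h : Sparse e ρ J₀) (K : Subfield ℂ) [Countable K] :
    {J : Set ℕ | ¬ LinearIndependent K
      (fun w : {w : List ℕ // Big w} => (Z w.1 (pert B e J) : ℂ))}.Countable := by
  classical
  have hcov : {J : Set ℕ | ¬ LinearIndependent K
      (fun w : {w : List ℕ // Big w} => (Z w.1 (pert B e J) : ℂ))} ⊆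
      ⋃ c : {c : {w : List ℕ // Big w} →₀ K // c ≠ 0}, {J : Set ℕ |
        Finsupp.linearCombination K
          (fun w : {w : List ℕ // Big w} => (Z w.1 (pert B e J) : ℂ)) c.1 = 0} := by
    intro J hJ
    rw [mem_setOf_eq, linearIndependent_iff] at hJ
    push Not at hJ
    obtain ⟨c, hc, hc0⟩ := hJ
    exact mem_iUnion.2 ⟨⟨c, hc0⟩, hc⟩
  refine (countable_iUnion fun c => ?_).mono hcov
  obtain ⟨c, hc⟩ := c
  set s : Finset (List ℕ) := c.support.map (Function.Embedding.subtype _) with hs
  set c' : List ℕ → ℂ := fun w => if hw : Big w then ((c ⟨w, hw⟩ : K) : ℂ) else 0 with hc'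
  have hbig : ∀ w ∈ s, Big w := by
    intro w hw
    rw [hs, Finset.mem_map] at hw
    obtain ⟨x, -, rfl⟩ := hw
    exact x.2
  have h1 := countable_zeros B h (s.sup List.length + 1) s c'
    (fun w hw => ⟨hbig w hw, Nat.lt_succ_of_le (Finset.le_sup (f := List.length) hw)⟩) (by
      obtain ⟨x, hx⟩ := Finsupp.support_nonempty_iff.2 hc
      refine ⟨x.1, Finset.mem_map.2 ⟨x, hx, rfl⟩, ?_⟩
      rw [hc']
      simp only [x.2, dif_pos, Subtype.coe_eta]
      intro h0
      exact (Finsupp.mem_support_iff.1 hx) (by exact_mod_cast h0))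
  refine h1.mono fun J hJ => ?_
  rw [mem_setOf_eq] at hJ ⊢
  rw [← hJ, Finsupp.linearCombination_apply, Finsupp.sum, F, hs, Finset.sum_map]
  refine Finset.sum_congr rfl fun x _ => ?_
  rw [hc']
  simp only [Function.Embedding.subtype_apply, x.2, dif_pos, Subtype.coe_eta]
  rfl

end Count

end Pool.Agent.H8.TS
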