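import Pool.Agent.H8.TS.Z

/-!
# Finite changes of the set
-/

set_option autoImplicit false

open Set

namespace Pool.Agent.H8.TS

theorem Big.take {l : List ℕ} (h : Big l) (i : ℕ) : Big (l.take i) :=
  fun a ha => h a (List.mem_of_mem_take ha)

theorem Big.drop {l : List ℕ} (h : Big l) (i : ℕ) : Big (l.drop i) :=
  fun a ha => h a (List.mem_of_mem_drop ha)

/-- Splitting of the sums at `N`. -/
theorem Z_split (N : ℕ) : ∀ l : List ℕ, Big l → ∀ A : Set ℕ, Z l A =
    ∑ i ∈ Finset.range (l.length + 1), Z (l.take i) (A ∩ Ioi N) * Z (l.drop i) (A ∩ Iic N) := by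
  intro l
  induction l with
  | nil => intro _ A; simp [Z]
  | cons k l ih =>
    intro hl A
    rw [List.length_cons, Finset.sum_range_succ']
    simp only [List.take_succ_cons, List.drop_succ_cons, List.take_zero, List.drop_zero]
    have h0 : Z ([] : List ℕ) (A ∩ Ioi N) = 1 := rfl
    rw [h0, one_mul]
    have hs : ∀ i, Summable fun m : ℕ => (A ∩ Ioi N).indicator
        (fun m => ((m : ℝ) ^ k)⁻¹ * Z (l.take i) (A ∩ Ioi N ∩ Iio m)) m * Z (l.drop i) (A ∩ Iic N) := by
      intro i
      refine (Z_summable (k := k) (l := l.take i) ?_ (A ∩ Ioi N)).mul_right _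
      intro a ha
      rcases List.mem_cons.1 ha with rfl | ha
      · exact hl.head
      · exact hl.tail.take i a ha
    have h1 : ∀ i, Z (k :: l.take i) (A ∩ Ioi N) * Z (l.drop i) (A ∩ Iic N) =
        ∑' m : ℕ, (A ∩ Ioi N).indicator
          (fun m => ((m : ℝ) ^ k)⁻¹ * Z (l.take i) (A ∩ Ioi N ∩ Iio m)) m *
            Z (l.drop i) (A ∩ Iic N) := fun i => by
      rw [Z, tsum_mul_right]
    simp only [h1]
    rw [← Summable.tsum_finsetSum (fun i _ => hs i)]
    have h2 : Z (k :: l) (A ∩ Iic N) = ∑' m : ℕ, (A ∩ Iic N).indicator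
        (fun m => ((m : ℝ) ^ k)⁻¹ * Z l (A ∩ Iic N ∩ Iio m)) m := rfl
    rw [h2, ← Summable.tsum_add (summable_sum fun i _ => hs i) (Z_summable hl _)]
    rw [Z]
    refine tsum_congr fun m => ?_
    by_cases hA : m ∈ A
    · rcases le_or_gt m N with hm | hm
      · have h3 : m ∉ A ∩ Ioi N := fun h => absurd h.2 (not_lt.2 hm)
        have h4 : m ∈ A ∩ Iic N := ⟨hA, hm⟩
        have h5 : A ∩ Iic N ∩ Iio m = A ∩ Iio m := by
          ext x
          simp only [mem_inter_iff, mem_Iic, mem_Iio]
          constructor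
          · rintro ⟨⟨h1, _⟩, h2⟩; exact ⟨h1, h2⟩
          · rintro ⟨h1, h2⟩; exact ⟨⟨h1, by omega⟩, h2⟩
        simp only [indicator_of_notMem h3, indicator_of_mem h4, indicator_of_mem hA, h5, zero_mul,
          Finset.sum_const_zero, zero_add]
      · have h3 : m ∈ A ∩ Ioi N := ⟨hA, hm⟩
        have h4 : m ∉ A ∩ Iic N := fun h => absurd h.2 (not_le.2 hm)
        simp only [indicator_of_mem h3, indicator_of_notMem h4, indicator_of_mem hA, add_zero]
        rw [ih hl.tail (A ∩ Iio m), Finset.mul_sum]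
        refine Finset.sum_congr rfl fun i _ => ?_
        have h5 : A ∩ Iio m ∩ Ioi N = A ∩ Ioi N ∩ Iio m := by
          ext x
          simp only [mem_inter_iff, mem_Ioi, mem_Iio]
          tauto
        have h6 : A ∩ Iio m ∩ Iic N = A ∩ Iic N := by
          ext x
          simp only [mem_inter_iff, mem_Iic, mem_Iio]
          constructor
          · rintro ⟨⟨h1, _⟩, h2⟩; exact ⟨h1, h2⟩
          · rintro ⟨h1, h2⟩; exact ⟨⟨h1, by omega⟩, h2⟩
        rw [h5, h6]
        ring
    · have h3 : m ∉ A ∩ Ioi N := fun h => hA h.1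
      have h4 : m ∉ A ∩ Iic N := fun h => hA h.1
      simp only [indicator_of_notMem h3, indicator_of_notMem h4, indicator_of_notMem hA, zero_mul,
        Finset.sum_const_zero, add_zero]

/-- The values over finite sets are rational. -/
theorem Z_mem (K : Subfield ℂ) (N : ℕ) : ∀ (l : List ℕ) (S : Set ℕ), S ⊆ Iic N →
    (Z l S : ℂ) ∈ K := by
  intro l
  induction l with
  | nil => intro S _; simp [Z]
  | cons k l ih =>
    intro S hS
    have h1 : Z (k :: l) S = ∑ m ∈ Finset.range (N + 1),
        S.indicator (fun m => ((m : ℝ) ^ k)⁻¹ * Z l (S ∩ Set.Iio m)) m := by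
      rw [Z]
      refine tsum_eq_sum fun m hm => indicator_of_notMem (fun h => hm ?_) _
      rw [Finset.mem_range]
      have := hS h
      rw [mem_Iic] at this
      omega
    rw [h1]
    push_cast
    refine K.sum_mem fun m _ => ?_
    by_cases hm : m ∈ S
    · rw [indicator_of_mem hm]
      push_cast
      exact K.mul_mem (K.inv_mem (K.pow_mem (natCast_mem K m) k))
        (ih _ (inter_subset_left.trans hS))
    · rw [indicator_of_notMem hm]
      simp

section Li

variable (K : Subfield ℂ) {W : Set (List ℕ)}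

/-- Two families with a unitriangular relation span the same spaces. -/
theorem span_eq {v v' : W → ℂ} (hWt : ∀ w ∈ W, ∀ i, w.take i ∈ W) (α : List ℕ → ℂ)
    (hα : ∀ l, α l ∈ K) (hα1 : α [] = 1)
    (hv : ∀ w : W, v' w = ∑ i ∈ Finset.range (w.1.length + 1),
      v ⟨w.1.take i, hWt w.1 w.2 i⟩ * α (w.1.drop i))
    (s : Finset W) (hs : ∀ w ∈ s, ∀ i, (⟨w.1.take i, hWt w.1 w.2 i⟩ : W) ∈ s) :
    Submodule.span K (range fun w : s => v' w.1) = Submodule.span K (range fun w : s => v w.1) := by
  have hterm : ∀ (a b : ℂ) (M : Submodule K ℂ), b ∈ K → a ∈ M → a * b ∈ M := by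
    intro a b M hb ha
    have : a * b = (⟨b, hb⟩ : K) • a := by
      rw [mul_comm]; rfl
    rw [this]
    exact M.smul_mem _ ha
  apply le_antisymm
  · rw [Submodule.span_le]
    rintro _ ⟨⟨w, hw⟩, rfl⟩
    simp only [SetLike.mem_coe]
    rw [hv]
    refine Submodule.sum_mem _ fun i _ => hterm _ _ _ (hα _) ?_
    exact Submodule.subset_span ⟨⟨_, hs w hw i⟩, rfl⟩
  · rw [Submodule.span_le]
    have key : ∀ n : ℕ, ∀ w : W, w ∈ s → w.1.length ≤ n →
        v w ∈ Submodule.span K (range fun w : s => v' w.1) := by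
      intro n
      induction n with
      | zero =>
        intro w hw hn
        have h1 : v' w = v w := by
          have h2 := hv w
          rw [Finset.sum_range_succ] at h2
          have h3 : (⟨w.1.take w.1.length, hWt w.1 w.2 w.1.length⟩ : W) = w :=
            Subtype.ext (by simp)
          rw [h3, List.drop_length, hα1, mul_one, Finset.sum_eq_zero, zero_add] at h2
          · exact h2
          · intro i hi
            rw [Finset.mem_range] at hi
            omega
        rw [← h1]
        exact Submodule.subset_span ⟨⟨w, hw⟩, rfl⟩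
      | succ n ih =>
        intro w hw hn
        have h2 := hv w
        rw [Finset.sum_range_succ] at h2
        have h3 : (⟨w.1.take w.1.length, hWt w.1 w.2 w.1.length⟩ : W) = w :=
          Subtype.ext (by simp)
        rw [h3, List.drop_length, hα1, mul_one] at h2
        have h4 : v w = v' w - ∑ i ∈ Finset.range w.1.length,
            v ⟨w.1.take i, hWt w.1 w.2 i⟩ * α (w.1.drop i) := by
          rw [h2]; ring
        rw [h4]
        refine Submodule.sub_mem _ (Submodule.subset_span ⟨⟨w, hw⟩, rfl⟩)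
          (Submodule.sum_mem _ fun i hi => hterm _ _ _ (hα _) (ih _ (hs w hw i) ?_))
        rw [Finset.mem_range] at hi
        simp only [List.length_take]
        omega
    rintro _ ⟨⟨w, hw⟩, rfl⟩
    exact key _ w hw le_rfl

/-- A finite set of words is contained in a finite set of words closed under prefixes. -/
theorem exists_closed (hWt : ∀ w ∈ W, ∀ i, w.take i ∈ W) (t : Finset W) : ∃ s : Finset W,
    t ⊆ s ∧ ∀ w ∈ s, ∀ i, (⟨w.1.take i, hWt w.1 w.2 i⟩ : W) ∈ s := by
  classical
  refine ⟨t.biUnion fun w => (Finset.range (w.1.length + 1)).image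
    fun i => (⟨w.1.take i, hWt w.1 w.2 i⟩ : W), fun w hw => ?_, fun w hw i => ?_⟩
  · rw [Finset.mem_biUnion]
    refine ⟨w, hw, Finset.mem_image.2 ⟨w.1.length, by simp, Subtype.ext (by simp)⟩⟩
  · rw [Finset.mem_biUnion] at hw ⊢
    obtain ⟨w', hw', hw⟩ := hw
    obtain ⟨j, hj, rfl⟩ := Finset.mem_image.1 hw
    refine ⟨w', hw', Finset.mem_image.2 ⟨min i j, ?_, Subtype.ext ?_⟩⟩
    · rw [Finset.mem_range] at hj ⊢
      omega
    · simp only
      rw [List.take_take]

/-- Linear independence is preserved by a unitriangular change. -/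
theorem li_iff_of_tri {v v' : W → ℂ} (hWt : ∀ w ∈ W, ∀ i, w.take i ∈ W) (α : List ℕ → ℂ)
    (hα : ∀ l, α l ∈ K) (hα1 : α [] = 1)
    (hv : ∀ w : W, v' w = ∑ i ∈ Finset.range (w.1.length + 1),
      v ⟨w.1.take i, hWt w.1 w.2 i⟩ * α (w.1.drop i)) :
    LinearIndependent K v' ↔ LinearIndependent K v := by
  have hfin : ∀ s : Finset W, (∀ w ∈ s, ∀ i, (⟨w.1.take i, hWt w.1 w.2 i⟩ : W) ∈ s) →
      (LinearIndependent K (fun w : s => v' w.1) ↔ LinearIndependent K (fun w : s => v w.1)) := by
    intro s hs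
    rw [linearIndependent_iff_card_eq_finrank_span, linearIndependent_iff_card_eq_finrank_span,
      Set.finrank, Set.finrank, span_eq K hWt α hα hα1 hv s hs]
  rw [linearIndependent_iff_finset_linearIndependent,
    linearIndependent_iff_finset_linearIndependent]
  constructor
  · intro h t
    obtain ⟨s, hts, hs⟩ := exists_closed hWt t
    have h1 := (hfin s hs).1 (h s)
    exact h1.comp (fun w : t => (⟨w.1, hts w.2⟩ : s)) fun a b hab => by
      have := congrArg (fun x : s => x.1) hab
      exact Subtype.ext this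
  · intro h t
    obtain ⟨s, hts, hs⟩ := exists_closed hWt t
    have h1 := (hfin s hs).2 (h s)
    exact h1.comp (fun w : t => (⟨w.1, hts w.2⟩ : s)) fun a b hab => by
      have := congrArg (fun x : s => x.1) hab
      exact Subtype.ext this

/-- Finite changes of the set do not matter for linear independence. -/
theorem li_iff (hW : ∀ w ∈ W, Big w) (hWt : ∀ w ∈ W, ∀ i, w.take i ∈ W) {A A' : Set ℕ}
    (hfin : (symmDiff A A').Finite) :
    LinearIndependent K (fun w : W => (Z w.1 A : ℂ)) ↔
      LinearIndependent K (fun w : W => (Z w.1 A' : ℂ)) := by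
  obtain ⟨N, hN⟩ := hfin.bddAbove
  have h1 : ∀ A : Set ℕ, LinearIndependent K (fun w : W => (Z w.1 A : ℂ)) ↔
      LinearIndependent K (fun w : W => (Z w.1 (A ∩ Ioi N) : ℂ)) := by
    intro A
    refine li_iff_of_tri K (v := fun w : W => (Z w.1 (A ∩ Ioi N) : ℂ)) hWt
      (fun l => (Z l (A ∩ Iic N) : ℂ)) (fun l => Z_mem K N l _ inter_subset_right) (by simp [Z])
      fun w => ?_
    rw [Z_split N w.1 (hW w.1 w.2) A]
    push_cast
    rfl
  have h2 : A ∩ Ioi N = A' ∩ Ioi N := by
    ext x
    simp only [mem_inter_iff, mem_Ioi]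
    by_cases hx : N < x
    · have h3 : x ∉ symmDiff A A' := fun h => absurd (hN h) (not_le.2 hx)
      rw [mem_symmDiff] at h3
      tauto
    · tauto
  rw [h1 A, h1 A', h2]

end Li

end Pool.Agent.H8.TS
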