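import Pool.Agent.H8.TS.Comb

/-!
# Sets that differ in a sparse sequence

`e` is a strictly increasing sequence of positive integers with `e (j + 1) ≥ ρ e j` for large `j`,
where `ρ ^ 2 > 2`.
-/

set_option autoImplicit false

open Set

namespace Pool.Agent.H8.TS

/-- A strictly increasing sequence of positive integers with ratios at least `ρ`, `ρ² > 2`, from
some place on. -/
structure Sparse (e : ℕ → ℕ) (ρ : ℝ) (J₀ : ℕ) : Prop where
  mono : StrictMono e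
  pos : ∀ j, 0 < e j
  one : 1 < ρ
  two : 2 < ρ ^ 2
  ratio : ∀ j, J₀ ≤ j → ρ * e j ≤ e (j + 1)

section Seq

variable {e : ℕ → ℕ} {ρ : ℝ} {J₀ : ℕ}

theorem Sparse.growth (h : Sparse e ρ J₀) {j : ℕ} (hj : J₀ ≤ j) :
    ∀ i : ℕ, ρ ^ i * e j ≤ e (j + i) := by
  intro i
  induction i with
  | zero => simp
  | succ i ih =>
    have h1 := h.ratio (j + i) (by omega)
    have h2 := h.one
    calc ρ ^ (i + 1) * e j = ρ * (ρ ^ i * e j) := by ring
      _ ≤ ρ * e (j + i) := by gcongr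
      _ ≤ e (j + (i + 1)) := h1

theorem Sparse.term (h : Sparse e ρ J₀) {j : ℕ} (hj : J₀ ≤ j) {k : ℕ} (hk : 2 ≤ k) (i : ℕ) :
    ((e (j + i) : ℝ) ^ k)⁻¹ ≤ ((e j : ℝ) ^ k)⁻¹ * ((ρ ^ 2)⁻¹) ^ i := by
  have h1 := h.growth hj i
  have h2 := h.one
  have h3 : (0 : ℝ) < e j := by exact_mod_cast h.pos j
  have h4 : (e j : ℝ) ^ k * (ρ ^ 2) ^ i ≤ (e (j + i) : ℝ) ^ k := by
    calc (e j : ℝ) ^ k * (ρ ^ 2) ^ i = (e j : ℝ) ^ k * (ρ ^ i) ^ 2 := by ring
      _ ≤ (e j : ℝ) ^ k * (ρ ^ i) ^ k := by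
          have : (1 : ℝ) ≤ ρ ^ i := one_le_pow₀ h2.le
          gcongr
      _ = (ρ ^ i * e j) ^ k := by rw [mul_pow, mul_comm]
      _ ≤ (e (j + i) : ℝ) ^ k := by gcongr
  rw [inv_pow, ← mul_inv]
  exact inv_anti₀ (by positivity) h4

theorem Sparse.r_lt (h : Sparse e ρ J₀) : (ρ ^ 2)⁻¹ < 1 / 2 := by
  have h2 := h.two
  rw [inv_lt_comm₀ (by positivity) (by norm_num)]
  simpa using h2

theorem Sparse.r_pos (h : Sparse e ρ J₀) : 0 < (ρ ^ 2)⁻¹ := by
  have h2 := h.one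
  positivity

/-- The power sum over the part of the sequence after the place `j`. -/
theorem Sparse.tail (h : Sparse e ρ J₀) {j : ℕ} (hj : J₀ ≤ j) {k : ℕ} (hk : 2 ≤ k) {S : Set ℕ}
    (hS : ∀ m ∈ S, ∃ i, j < i ∧ e i = m) :
    P k S ≤ ((ρ ^ 2)⁻¹ * (1 - (ρ ^ 2)⁻¹)⁻¹) * ((e j : ℝ) ^ k)⁻¹ := by
  set r := (ρ ^ 2)⁻¹ with hr
  have hr1 : r < 1 / 2 := h.r_lt
  have hr0 : 0 < r := h.r_pos
  set g : ℕ → ℕ := fun i => e (j + (i + 1)) with hg
  have hginj : Function.Injective g := fun a b hab => by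
    have := h.mono.injective hab
    omega
  have hsub : S ⊆ range g := by
    intro m hm
    obtain ⟨i, hi, rfl⟩ := hS m hm
    exact ⟨i - j - 1, by simp only [hg]; congr 1; omega⟩
  refine (P_mono hk hsub).trans ?_
  have h1 : P k (range g) = ∑' i : ℕ, ((g i : ℝ) ^ k)⁻¹ := by
    unfold P
    rw [← hginj.tsum_eq (f := (range g).indicator (fun m => ((m : ℝ) ^ k)⁻¹))]
    · exact tsum_congr fun i => indicator_of_mem (mem_range_self i) _
    · intro m hm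
      by_contra hc
      exact hm (indicator_of_notMem hc _)
  rw [h1]
  have h2 : ∀ i : ℕ, ((g i : ℝ) ^ k)⁻¹ ≤ ((e j : ℝ) ^ k)⁻¹ * r * r ^ i := by
    intro i
    have := h.term hj hk (i + 1)
    rw [pow_succ] at this
    calc ((g i : ℝ) ^ k)⁻¹ ≤ ((e j : ℝ) ^ k)⁻¹ * (r ^ i * r) := this
      _ = _ := by ring
  have h3 : Summable fun i : ℕ => ((e j : ℝ) ^ k)⁻¹ * r * r ^ i :=
    (summable_geometric_of_lt_one hr0.le (by linarith)).mul_left _
  have h4 : Summable fun i : ℕ => ((g i : ℝ) ^ k)⁻¹ :=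
    Summable.of_nonneg_of_le (fun i => by positivity) h2 h3
  calc ∑' i : ℕ, ((g i : ℝ) ^ k)⁻¹ ≤ ∑' i : ℕ, ((e j : ℝ) ^ k)⁻¹ * r * r ^ i :=
        h4.tsum_le_tsum h2 h3
    _ = ((e j : ℝ) ^ k)⁻¹ * r * (1 - r)⁻¹ := by
        rw [tsum_mul_left, tsum_geometric_of_lt_one hr0.le (by linarith)]
    _ = _ := by ring

/-- Two sets which differ in `e '' S` only, and do differ first at `e j`. -/
structure Differ (e : ℕ → ℕ) (A A' : Set ℕ) (j : ℕ) : Prop where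
  sub : ∀ m ∈ symmDiff A A', ∃ i, j ≤ i ∧ e i = m
  mem : e j ∈ symmDiff A A'

theorem Differ.below (h : Sparse e ρ J₀) {A A' : Set ℕ} {j : ℕ} (hd : Differ e A A' j) :
    ∀ m < e j, m ∈ A ↔ m ∈ A' := by
  intro m hm
  by_contra hc
  have h1 : m ∈ symmDiff A A' := by rw [mem_symmDiff]; tauto
  obtain ⟨i, hi, rfl⟩ := hd.sub m h1
  exact absurd hm (not_lt.2 (h.mono.monotone hi))

theorem theta_lt (h : Sparse e ρ J₀) : (ρ ^ 2)⁻¹ * (1 - (ρ ^ 2)⁻¹)⁻¹ < 1 := by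
  have h1 := h.r_lt
  have h2 : 0 < 1 - (ρ ^ 2)⁻¹ := by linarith
  rw [mul_inv_lt_iff₀ h2]
  linarith

theorem theta_nonneg (h : Sparse e ρ J₀) : 0 ≤ (ρ ^ 2)⁻¹ * (1 - (ρ ^ 2)⁻¹)⁻¹ := by
  have h1 := h.r_lt
  have h2 : 0 < 1 - (ρ ^ 2)⁻¹ := by linarith
  have h3 := h.r_pos
  positivity

theorem Differ.rest (_h : Sparse e ρ J₀) {A A' : Set ℕ} {j : ℕ} (hd : Differ e A A' j) :
    ∀ m ∈ symmDiff A A' \ {e j}, ∃ i, j < i ∧ e i = m := by
  rintro m ⟨hm, hne⟩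
  obtain ⟨i, hi, rfl⟩ := hd.sub m hm
  refine ⟨i, lt_of_le_of_ne hi ?_, rfl⟩
  rintro rfl
  exact hne rfl

/-- The difference of the power sums is at least a constant times the first term. -/
theorem Differ.lower (h : Sparse e ρ J₀) {A A' : Set ℕ} {j : ℕ} (hj : J₀ ≤ j)
    (hd : Differ e A A' j) {k : ℕ} (hk : 2 ≤ k) :
    (1 - (ρ ^ 2)⁻¹ * (1 - (ρ ^ 2)⁻¹)⁻¹) * ((e j : ℝ) ^ k)⁻¹ ≤ |P k A - P k A'| := by
  set f : ℕ → ℝ := fun m => A.indicator (fun m => ((m : ℝ) ^ k)⁻¹) m -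
    A'.indicator (fun m => ((m : ℝ) ^ k)⁻¹) m with hf
  have hfs : Summable f := (summable_ind hk A).sub (summable_ind hk A')
  have hfa : ∀ m, |f m| = (symmDiff A A').indicator (fun m => ((m : ℝ) ^ k)⁻¹) m := by
    intro m
    have hp := pow_nonneg' k m
    by_cases hA : m ∈ A <;> by_cases hA' : m ∈ A'
    · simp only [hf, indicator_of_mem hA, indicator_of_mem hA']
      rw [indicator_of_notMem (by rw [mem_symmDiff]; tauto), sub_self, abs_zero]
    · simp only [hf, indicator_of_mem hA, indicator_of_notMem hA']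
      rw [indicator_of_mem (by rw [mem_symmDiff]; tauto), sub_zero, abs_of_nonneg hp]
    · simp only [hf, indicator_of_notMem hA, indicator_of_mem hA']
      rw [indicator_of_mem (by rw [mem_symmDiff]; tauto), zero_sub, abs_neg, abs_of_nonneg hp]
    · simp only [hf, indicator_of_notMem hA, indicator_of_notMem hA']
      rw [indicator_of_notMem (by rw [mem_symmDiff]; tauto), sub_self, abs_zero]
  have h1 : P k A - P k A' = ∑' m, f m :=
    ((summable_ind hk A).tsum_sub (summable_ind hk A')).symm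
  have h2 : ∑' m, f m = f (e j) + ∑' m, ite (m = e j) 0 (f m) := hfs.tsum_eq_add_tsum_ite (e j)
  have h3 : |f (e j)| = ((e j : ℝ) ^ k)⁻¹ := by rw [hfa, indicator_of_mem hd.mem]
  have h5 : ∀ m, |ite (m = e j) 0 (f m)| =
      (symmDiff A A' \ {e j}).indicator (fun m => ((m : ℝ) ^ k)⁻¹) m := by
    intro m
    by_cases hm : m = e j
    · rw [if_pos hm, abs_zero, indicator_of_notMem (by simp [hm])]
    · rw [if_neg hm, hfa]
      by_cases hm' : m ∈ symmDiff A A'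
      · rw [indicator_of_mem hm', indicator_of_mem
          (show m ∈ symmDiff A A' \ {e j} from ⟨hm', by simpa using hm⟩)]
      · rw [indicator_of_notMem hm', indicator_of_notMem (fun h => hm' h.1)]
  have h4 : |∑' m, ite (m = e j) 0 (f m)| ≤ P k (symmDiff A A' \ {e j}) := by
    have hsn : Summable fun m => ‖ite (m = e j) 0 (f m)‖ := by
      simp only [Real.norm_eq_abs, h5]
      exact summable_ind hk _
    have := norm_tsum_le_tsum_norm hsn
    simp only [Real.norm_eq_abs, h5] at this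
    exact this
  have h6 := h.tail hj hk (hd.rest h)
  rw [h1, h2]
  have h7 : |f (e j)| - |∑' m, ite (m = e j) 0 (f m)| ≤
      |f (e j) + ∑' m, ite (m = e j) 0 (f m)| := by
    have := abs_sub_abs_le_abs_sub (f (e j)) (-∑' m, ite (m = e j) 0 (f m))
    rwa [abs_neg, sub_neg_eq_add] at this
  rw [h3] at h7
  linarith

theorem P_union_singleton {k : ℕ} (hk : 2 ≤ k) (S : Set ℕ) (x : ℕ) :
    P k S ≤ ((x : ℝ) ^ k)⁻¹ + P k (S \ {x}) := by
  have h1 := (summable_ind hk S).tsum_eq_add_tsum_ite x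
  have h2 : ∀ m : ℕ, ite (m = x) 0 (S.indicator (fun m => ((m : ℝ) ^ k)⁻¹) m) =
      (S \ {x}).indicator (fun m => ((m : ℝ) ^ k)⁻¹) m := by
    intro m
    by_cases hm : m = x
    · rw [if_pos hm, indicator_of_notMem (by simp [hm])]
    · rw [if_neg hm]
      by_cases hm' : m ∈ S
      · rw [indicator_of_mem hm', indicator_of_mem
          (show m ∈ S \ {x} from ⟨hm', by simpa using hm⟩)]
      · rw [indicator_of_notMem hm', indicator_of_notMem (fun h => hm' h.1)]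
  simp only [h2] at h1
  have h3 : S.indicator (fun m => ((m : ℝ) ^ k)⁻¹) x ≤ ((x : ℝ) ^ k)⁻¹ :=
    indicator_le_self' (fun m _ => pow_nonneg' k m) x
  unfold P
  rw [h1]
  linarith

theorem Differ.upper (h : Sparse e ρ J₀) {A A' : Set ℕ} {j : ℕ} (hj : J₀ ≤ j)
    (hd : Differ e A A' j) : P 2 (symmDiff A A') ≤ 2 * ((e j : ℝ) ^ 2)⁻¹ := by
  refine (P_union_singleton le_rfl _ (e j)).trans ?_
  have h1 := h.tail hj le_rfl (hd.rest h)
  have h2 := theta_lt h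
  have h3 : (ρ ^ 2)⁻¹ * (1 - (ρ ^ 2)⁻¹)⁻¹ * ((e j : ℝ) ^ 2)⁻¹ ≤ 1 * ((e j : ℝ) ^ 2)⁻¹ := by
    gcongr
  linarith

/-- If two combinations are equal, the sets differ early or the leading coefficient is small. -/
theorem bound_of_eq (h : Sparse e ρ J₀) {k : ℕ} (hk : 2 ≤ k) (s : Finset (List ℕ))
    (c : List ℕ → ℂ) (hs : ∀ w ∈ s, Big w)
    (hmin : ∀ k' l, k' :: l ∈ s → c (k' :: l) ≠ 0 → k ≤ k') : ∃ C : ℝ, 0 ≤ C ∧
    ∀ (A A' : Set ℕ) (j : ℕ), J₀ ≤ j → Differ e A A' j → F s c A = F s c A' →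
      ‖F (drop k s) (fun l => c (k :: l)) A‖ * e j ≤ C := by
  obtain ⟨C, hC, hF⟩ := F_main (k := k) s c hs hmin
  set η := 1 - (ρ ^ 2)⁻¹ * (1 - (ρ ^ 2)⁻¹)⁻¹ with hη
  have hη0 : 0 < η := by have := theta_lt h; linarith
  refine ⟨2 * C / η, by positivity, fun A A' j hj hd heq => ?_⟩
  have h1 := hF A A' (e j) (h.pos j) (hd.below h)
  rw [heq, sub_self, zero_sub, norm_neg, norm_mul, Complex.norm_real, Real.norm_eq_abs] at h1
  have h2 := hd.lower h hj hk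
  have h3 := hd.upper h hj
  have he : (0 : ℝ) < e j := by exact_mod_cast h.pos j
  set G := ‖F (drop k s) (fun l => c (k :: l)) A‖ with hG
  have hG0 : 0 ≤ G := norm_nonneg _
  have h4 : G * (η * ((e j : ℝ) ^ k)⁻¹) ≤
      C * ((e j : ℝ) * ((e j : ℝ) ^ k)⁻¹ * (2 * ((e j : ℝ) ^ 2)⁻¹)) := by
    calc G * (η * ((e j : ℝ) ^ k)⁻¹) ≤ G * |P k A - P k A'| := by gcongr
      _ ≤ _ := h1
      _ ≤ _ := by gcongr
  have h5 : C * ((e j : ℝ) * ((e j : ℝ) ^ k)⁻¹ * (2 * ((e j : ℝ) ^ 2)⁻¹)) =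
      (2 * C / e j) * ((e j : ℝ) ^ k)⁻¹ := by
    field_simp
  have h6 : G * η ≤ 2 * C / e j := by
    have h7 : (0 : ℝ) < ((e j : ℝ) ^ k)⁻¹ := by positivity
    rw [h5, ← mul_assoc] at h4
    exact le_of_mul_le_mul_right h4 h7
  rw [le_div_iff₀ hη0]
  rw [le_div_iff₀ he] at h6
  linarith

end Seq

end Pool.Agent.H8.TS
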