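import Pool.Agent.H8.TS.Z

/-!
# The values as sums over decreasing tuples
-/

set_option autoImplicit false

open Set

namespace Pool.Agent.H8.TS

/-- Decreasing tuples of positive elements of `A`. -/
abbrev Tup (A : Set ℕ) (n : ℕ) : Type := {m : Fin n → ℕ // StrictAnti m ∧ ∀ i, 0 < m i ∧ m i ∈ A}

/-- A tuple is its largest element and the other ones. -/
def consEquiv (A : Set ℕ) (n : ℕ) :
    (Σ m : {m : ℕ // 0 < m ∧ m ∈ A}, Tup (A ∩ Iio m.1) n) ≃ Tup A (n + 1) where
  toFun p := ⟨Fin.cons p.1.1 p.2.1, by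
    constructor
    · intro i j hij
      induction j using Fin.cases with
      | zero => exact absurd hij (Fin.not_lt_zero i)
      | succ j =>
        induction i using Fin.cases with
        | zero =>
          rw [Fin.cons_zero, Fin.cons_succ]
          exact (p.2.2.2 j).2.2
        | succ i =>
          rw [Fin.cons_succ, Fin.cons_succ]
          exact p.2.2.1 (Fin.succ_lt_succ_iff.1 hij)
    · intro i
      induction i using Fin.cases with
      | zero => rw [Fin.cons_zero]; exact p.1.2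
      | succ i =>
        rw [Fin.cons_succ]
        exact ⟨(p.2.2.2 i).1, (p.2.2.2 i).2.1⟩⟩
  invFun m := ⟨⟨m.1 0, m.2.2 0⟩, ⟨fun i => m.1 i.succ,
    fun _ _ hij => m.2.1 (Fin.succ_lt_succ_iff.2 hij),
    fun i => ⟨(m.2.2 i.succ).1, (m.2.2 i.succ).2, m.2.1 (Fin.succ_pos i)⟩⟩⟩
  left_inv p := by
    obtain ⟨⟨a, ha⟩, ⟨f, hf⟩⟩ := p
    rfl
  right_inv m := by
    apply Subtype.ext
    funext i
    induction i using Fin.cases with
    | zero => simp
    | succ i => simp

/-- The multiple zeta value over the set `A`; the head of the list is the exponent of the largest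
variable. -/
noncomputable def mzv (A : Set ℕ) (l : List ℕ) : ℝ :=
  ∑' m : {m : Fin l.length → ℕ // StrictAnti m ∧ ∀ i, 0 < m i ∧ m i ∈ A},
    ∏ i, ((m.1 i : ℝ) ^ (l.get i))⁻¹

theorem mzv_eq : ∀ l : List ℕ, Big l → ∀ A : Set ℕ,
    (Summable fun m : Tup A l.length => ∏ i, ((m.1 i : ℝ) ^ (l.get i))⁻¹) ∧ mzv A l = Z l A := by
  intro l
  induction l with
  | nil =>
    intro _ A
    let u : Unique (Tup A ([] : List ℕ).length) :=
      { default := ⟨fun i => i.elim0, fun i => i.elim0, fun i => i.elim0⟩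
        uniq := fun a => Subtype.ext (funext fun i => i.elim0) }
    have hfin : Finite (Tup A ([] : List ℕ).length) := Finite.of_subsingleton
    refine ⟨Summable.of_finite, ?_⟩
    have h1 := tsum_fintype (L := SummationFilter.unconditional _)
      (fun m : Tup A ([] : List ℕ).length => ∏ i, ((m.1 i : ℝ) ^ (([] : List ℕ).get i))⁻¹)
    unfold mzv
    rw [h1, Fintype.sum_unique]
    simp [Z]
  | cons k l ih =>
    intro hl A
    have hk := hl.head
    have hih := ih hl.tail
    set g : (Σ m : {m : ℕ // 0 < m ∧ m ∈ A}, Tup (A ∩ Iio m.1) l.length) → ℝ := fun p =>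
      ((p.1.1 : ℝ) ^ k)⁻¹ * ∏ i, ((p.2.1 i : ℝ) ^ (l.get i))⁻¹ with hg
    have hgf : ∀ p, (∏ i : Fin (k :: l).length,
        ((((consEquiv A l.length) p).1 i : ℝ) ^ ((k :: l).get i))⁻¹) = g p := by
      intro p
      have h1 := Fin.prod_univ_succ (n := l.length)
        (fun i => ((((consEquiv A l.length) p).1 i : ℝ) ^ ((k :: l).get i))⁻¹)
      exact h1
    have hg0 : ∀ p, 0 ≤ g p := fun p => by
      refine mul_nonneg (by positivity) (Finset.prod_nonneg fun i _ => by positivity)
    have hfib : ∀ m : {m : ℕ // 0 < m ∧ m ∈ A}, (∑' t, g ⟨m, t⟩) =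
        ((m.1 : ℝ) ^ k)⁻¹ * Z l (A ∩ Iio m.1) := by
      intro m
      rw [← (hih (A ∩ Iio m.1)).2]
      have h1 := tsum_mul_left (a := ((m.1 : ℝ) ^ k)⁻¹)
        (f := fun t : Tup (A ∩ Iio m.1) l.length => ∏ i, ((t.1 i : ℝ) ^ (l.get i))⁻¹)
        (L := SummationFilter.unconditional _)
      exact h1
    have hind : ({m : ℕ | 0 < m ∧ m ∈ A}).indicator
        (fun m => ((m : ℝ) ^ k)⁻¹ * Z l (A ∩ Iio m)) =
        A.indicator (fun m => ((m : ℝ) ^ k)⁻¹ * Z l (A ∩ Iio m)) := by
      funext m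
      by_cases hA : m ∈ A
      · rcases Nat.eq_zero_or_pos m with rfl | hm
        · have hk0 : k ≠ 0 := by omega
          rw [indicator_of_notMem (fun h => absurd h.1 (lt_irrefl _)), indicator_of_mem hA]
          simp [hk0]
        · rw [indicator_of_mem (show m ∈ {m : ℕ | 0 < m ∧ m ∈ A} from ⟨hm, hA⟩),
            indicator_of_mem hA]
      · rw [indicator_of_notMem (fun h => hA h.2), indicator_of_notMem hA]
    have hsub : Summable fun m : {m : ℕ | 0 < m ∧ m ∈ A} =>
        ((m.1 : ℝ) ^ k)⁻¹ * Z l (A ∩ Iio m.1) := by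
      have h1 : Summable (({m : ℕ | 0 < m ∧ m ∈ A}).indicator
          (fun m => ((m : ℝ) ^ k)⁻¹ * Z l (A ∩ Iio m))) := by
        rw [hind]
        exact Z_summable hl A
      exact summable_subtype_iff_indicator.2 h1
    have hgs : Summable g := by
      rw [summable_sigma_of_nonneg hg0]
      refine ⟨fun m => ((hih (A ∩ Iio m.1)).1.mul_left (((m.1 : ℝ) ^ k)⁻¹)), ?_⟩
      simp only [hfib]
      exact hsub
    have hcomp : (fun m : Tup A (k :: l).length => ∏ i, ((m.1 i : ℝ) ^ ((k :: l).get i))⁻¹) ∘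
        (consEquiv A l.length) = g := funext hgf
    refine ⟨?_, ?_⟩
    · have h1 := (consEquiv A l.length).summable_iff
        (f := fun m : Tup A (k :: l).length => ∏ i, ((m.1 i : ℝ) ^ ((k :: l).get i))⁻¹)
      rw [← h1, hcomp]
      exact hgs
    · have h1 := (consEquiv A l.length).tsum_eq
        (fun m : Tup A (k :: l).length => ∏ i, ((m.1 i : ℝ) ^ ((k :: l).get i))⁻¹)
      have h2 : mzv A (k :: l) = ∑' p, g p := by
        refine Eq.trans h1.symm ?_
        exact tsum_congr hgf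
      rw [h2, hgs.tsum_sigma]
      simp only [hfib]
      rw [Z, ← hind]
      exact tsum_subtype {m : ℕ | 0 < m ∧ m ∈ A} (fun m : ℕ => ((m : ℝ) ^ k)⁻¹ * Z l (A ∩ Iio m))

end Pool.Agent.H8.TS
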