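import Mathlib

/-!
# Multiple zeta values over a set of integers: elementary estimates

`Z l A` is the sum of `m_1^(-k_1) ... m_n^(-k_n)` over `m_1 > ... > m_n` in `A`, `l = [k_1, ..., k_n]`;
`P k A` is the power sum. We only use words with all letters at least two.
-/

set_option autoImplicit false

open Set

namespace Pool.Agent.H8.TS

/-- The multiple zeta value over a set, by recursion; the head belongs to the largest variable. -/
noncomputable def Z : List ℕ → Set ℕ → ℝ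
  | [], _ => 1
  | k :: l, A => ∑' m : ℕ, A.indicator (fun m => ((m : ℝ) ^ k)⁻¹ * Z l (A ∩ Set.Iio m)) m

/-- The power sums. -/
noncomputable def P (k : ℕ) (S : Set ℕ) : ℝ := ∑' m : ℕ, S.indicator (fun m => ((m : ℝ) ^ k)⁻¹) m

/-- All letters are at least two. -/
def Big (l : List ℕ) : Prop := ∀ a ∈ l, 2 ≤ a

theorem Big.head {k : ℕ} {l : List ℕ} (h : Big (k :: l)) : 2 ≤ k := h k (by simp)

theorem Big.tail {k : ℕ} {l : List ℕ} (h : Big (k :: l)) : Big l :=
  fun a ha => h a (List.mem_cons_of_mem _ ha)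

theorem pow_nonneg' (k m : ℕ) : 0 ≤ ((m : ℝ) ^ k)⁻¹ := by positivity

theorem pow_anti {k k' : ℕ} (hk : 1 ≤ k) (hkk : k ≤ k') (m : ℕ) :
    ((m : ℝ) ^ k')⁻¹ ≤ ((m : ℝ) ^ k)⁻¹ := by
  rcases Nat.eq_zero_or_pos m with rfl | hm
  · have h1 : k ≠ 0 := by omega
    have h2 : k' ≠ 0 := by omega
    simp [h1, h2]
  · have hm' : (1 : ℝ) ≤ m := by exact_mod_cast hm
    exact inv_anti₀ (by positivity) (pow_le_pow_right₀ hm' hkk)

theorem summable_pow {k : ℕ} (hk : 2 ≤ k) : Summable fun m : ℕ => ((m : ℝ) ^ k)⁻¹ :=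
  Real.summable_nat_pow_inv.2 (by omega)

theorem tsum_two_le : ∑' m : ℕ, ((m : ℝ) ^ 2)⁻¹ ≤ 2 := by
  have h1 : ∑' m : ℕ, ((m : ℝ) ^ 2)⁻¹ = Real.pi ^ 2 / 6 := by
    have := hasSum_zeta_two.tsum_eq
    simpa [one_div] using this
  rw [h1]
  have h2 := Real.pi_lt_d2
  have h3 := Real.pi_pos
  nlinarith

theorem summable_ind {k : ℕ} (hk : 2 ≤ k) (S : Set ℕ) :
    Summable fun m : ℕ => S.indicator (fun m => ((m : ℝ) ^ k)⁻¹) m :=
  (summable_pow hk).indicator S

theorem P_nonneg (k : ℕ) (S : Set ℕ) : 0 ≤ P k S :=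
  tsum_nonneg fun m => indicator_nonneg (fun m _ => pow_nonneg' k m) m

theorem P_mono {k : ℕ} (hk : 2 ≤ k) {S T : Set ℕ} (h : S ⊆ T) : P k S ≤ P k T :=
  (summable_ind hk S).tsum_le_tsum
    (fun m => indicator_le_indicator_of_subset h (fun m => pow_nonneg' k m) m) (summable_ind hk T)

theorem P_two_le (S : Set ℕ) : P 2 S ≤ 2 :=
  ((summable_ind le_rfl S).tsum_le_tsum (fun m => indicator_le_self' (fun m _ => pow_nonneg' 2 m) m)
    (summable_pow le_rfl)).trans tsum_two_le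

/-- Power sums over sets of large numbers. -/
theorem P_le_of_ge {k : ℕ} (hk : 2 ≤ k) {e : ℕ} (he : 1 ≤ e) {S : Set ℕ} (hS : ∀ m ∈ S, e ≤ m) :
    P k S ≤ (e : ℝ) ^ 2 * ((e : ℝ) ^ k)⁻¹ * P 2 S := by
  unfold P
  rw [← tsum_mul_left]
  refine (summable_ind hk S).tsum_le_tsum (fun m => ?_) ((summable_ind le_rfl S).mul_left _)
  by_cases hm : m ∈ S
  · rw [indicator_of_mem hm, indicator_of_mem hm]
    have h1 : (1 : ℝ) ≤ e := by exact_mod_cast he
    have h2 : (e : ℝ) ≤ m := by exact_mod_cast hS m hm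
    obtain ⟨j, rfl⟩ : ∃ j, k = 2 + j := ⟨k - 2, by omega⟩
    have h3 : (e : ℝ) ^ 2 * ((e : ℝ) ^ (2 + j))⁻¹ = ((e : ℝ) ^ j)⁻¹ := by
      rw [pow_add]; field_simp
    have h4 : ((m : ℝ) ^ (2 + j))⁻¹ = ((m : ℝ) ^ j)⁻¹ * ((m : ℝ) ^ 2)⁻¹ := by
      rw [pow_add, mul_inv, mul_comm]
    rw [h3, h4]
    exact mul_le_mul_of_nonneg_right (inv_anti₀ (by positivity)
      (pow_le_pow_left₀ (by linarith) h2 j)) (by positivity)
  · rw [indicator_of_notMem hm, indicator_of_notMem hm, mul_zero]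

theorem P_Ici_le {e : ℕ} (he : 1 ≤ e) : P 2 (Ici e) ≤ 2 / e := by
  unfold P
  refine Real.tsum_le_of_sum_range_le (fun m => indicator_nonneg (fun m _ => pow_nonneg' 2 m) m)
    fun n => ?_
  have h1 := sum_Ioo_inv_sq_le (α := ℝ) (e - 1) n
  have h2 : ((e - 1 : ℕ) : ℝ) + 1 = e := by
    rw [Nat.cast_sub he]; simp
  rw [h2] at h1
  refine le_trans (le_of_eq ?_) h1
  rw [← Finset.sum_subset (s₁ := Finset.Ioo (e - 1) n) (s₂ := Finset.range n)]
  · refine Finset.sum_congr rfl fun m hm => ?_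
    rw [Finset.mem_Ioo] at hm
    rw [indicator_of_mem (show m ∈ Ici e by simp only [mem_Ici]; omega)]
  · intro m hm
    rw [Finset.mem_Ioo] at hm
    exact Finset.mem_range.2 hm.2
  · intro m hm hm'
    rw [Finset.mem_Ioo] at hm'
    rw [Finset.mem_range] at hm
    exact indicator_of_notMem (by simp only [mem_Ici]; omega) _

theorem Z_bd : ∀ l : List ℕ, Big l → ∀ A : Set ℕ, 0 ≤ Z l A ∧ Z l A ≤ 2 ^ l.length := by
  intro l
  induction l with
  | nil => intro _ A; simp [Z]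
  | cons k l ih =>
    intro hl A
    have hk := hl.head
    have hb := ih hl.tail
    have h0 : ∀ m : ℕ, 0 ≤ A.indicator (fun m => ((m : ℝ) ^ k)⁻¹ * Z l (A ∩ Set.Iio m)) m :=
      fun m => indicator_nonneg (fun m _ => mul_nonneg (pow_nonneg' k m) (hb _).1) m
    have h1 : ∀ m : ℕ, A.indicator (fun m => ((m : ℝ) ^ k)⁻¹ * Z l (A ∩ Set.Iio m)) m ≤
        2 ^ l.length * ((m : ℝ) ^ 2)⁻¹ := by
      intro m
      refine (indicator_le_self' (fun m _ => mul_nonneg (pow_nonneg' k m) (hb _).1) m).trans ?_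
      rw [mul_comm]
      exact mul_le_mul (hb _).2 (pow_anti (by norm_num) hk m) (pow_nonneg' k m) (by positivity)
    refine ⟨tsum_nonneg h0, ?_⟩
    have h2 : Summable fun m : ℕ => (2 : ℝ) ^ l.length * ((m : ℝ) ^ 2)⁻¹ :=
      (summable_pow le_rfl).mul_left _
    calc Z (k :: l) A ≤ ∑' m : ℕ, (2 : ℝ) ^ l.length * ((m : ℝ) ^ 2)⁻¹ :=
          (Summable.of_nonneg_of_le h0 h1 h2).tsum_le_tsum h1 h2
      _ = 2 ^ l.length * ∑' m : ℕ, ((m : ℝ) ^ 2)⁻¹ := tsum_mul_left
      _ ≤ 2 ^ l.length * 2 := by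
          have := tsum_two_le
          gcongr
      _ = 2 ^ (k :: l).length := by rw [List.length_cons, pow_succ]

theorem Z_summable {k : ℕ} {l : List ℕ} (hl : Big (k :: l)) (A : Set ℕ) :
    Summable fun m : ℕ => A.indicator (fun m => ((m : ℝ) ^ k)⁻¹ * Z l (A ∩ Set.Iio m)) m := by
  have hk := hl.head
  have hb := Z_bd l hl.tail
  refine Summable.of_nonneg_of_le
    (fun m => indicator_nonneg (fun m _ => mul_nonneg (pow_nonneg' k m) (hb _).1) m) (fun m => ?_)
    ((summable_pow le_rfl).mul_left ((2 : ℝ) ^ l.length))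
  refine (indicator_le_self' (fun m _ => mul_nonneg (pow_nonneg' k m) (hb _).1) m).trans ?_
  rw [mul_comm]
  exact mul_le_mul (hb _).2 (pow_anti (by norm_num) hk m) (pow_nonneg' k m) (by positivity)

theorem inter_symmDiff (A A' : Set ℕ) (N : Set ℕ) :
    symmDiff (A ∩ N) (A' ∩ N) ⊆ symmDiff A A' := by
  intro x hx
  rw [mem_symmDiff] at hx ⊢
  rcases hx with ⟨⟨h1, h2⟩, h3⟩ | ⟨⟨h1, h2⟩, h3⟩
  · exact Or.inl ⟨h1, fun h => h3 ⟨h, h2⟩⟩
  · exact Or.inr ⟨h1, fun h => h3 ⟨h, h2⟩⟩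

/-- The values are Lipschitz for the power sum of the symmetric difference. -/
theorem Z_lip : ∀ l : List ℕ, Big l → ∃ C : ℝ, 0 ≤ C ∧ ∀ A A' : Set ℕ,
    |Z l A - Z l A'| ≤ C * P 2 (symmDiff A A') := by
  intro l
  induction l with
  | nil => intro _; exact ⟨0, le_rfl, fun A A' => by simp [Z]⟩
  | cons k l ih =>
    intro hl
    obtain ⟨C, hC, h⟩ := ih hl.tail
    have hk := hl.head
    have hb := Z_bd l hl.tail
    refine ⟨2 ^ l.length + 2 * C, by positivity, fun A A' => ?_⟩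
    set S := symmDiff A A' with hS
    set f : ℕ → ℝ := fun m => A.indicator (fun m => ((m : ℝ) ^ k)⁻¹ * Z l (A ∩ Set.Iio m)) m
    set f' : ℕ → ℝ := fun m => A'.indicator (fun m => ((m : ℝ) ^ k)⁻¹ * Z l (A' ∩ Set.Iio m)) m
    have hf : Summable f := Z_summable hl A
    have hf' : Summable f' := Z_summable hl A'
    have key : ∀ m : ℕ, |f m - f' m| ≤
        2 ^ l.length * S.indicator (fun m => ((m : ℝ) ^ 2)⁻¹) m + C * P 2 S * ((m : ℝ) ^ 2)⁻¹ := by
      intro m
      have hp := pow_nonneg' k m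
      have hp2 := pow_anti (k := 2) (by norm_num) hk m
      have hPS := P_nonneg 2 S
      have hp3 := pow_nonneg' 2 m
      by_cases hA : m ∈ A <;> by_cases hA' : m ∈ A'
      · have hnS : m ∉ S := by rw [hS, mem_symmDiff]; tauto
        simp only [f, f', indicator_of_mem hA, indicator_of_mem hA', indicator_of_notMem hnS]
        rw [← mul_sub, abs_mul, abs_of_nonneg hp, mul_zero, zero_add]
        have h1 := h (A ∩ Iio m) (A' ∩ Iio m)
        have h2 : P 2 (symmDiff (A ∩ Iio m) (A' ∩ Iio m)) ≤ P 2 S :=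
          P_mono le_rfl (inter_symmDiff A A' _)
        calc ((m : ℝ) ^ k)⁻¹ * |Z l (A ∩ Iio m) - Z l (A' ∩ Iio m)|
            ≤ ((m : ℝ) ^ 2)⁻¹ * (C * P 2 S) := by
              refine mul_le_mul hp2 (h1.trans (by gcongr)) (abs_nonneg _) hp3
          _ = C * P 2 S * ((m : ℝ) ^ 2)⁻¹ := by ring
      · have hS' : m ∈ S := by rw [hS, mem_symmDiff]; tauto
        simp only [f, f', indicator_of_mem hA, indicator_of_notMem hA', indicator_of_mem hS']
        rw [sub_zero, abs_mul, abs_of_nonneg hp, abs_of_nonneg (hb _).1]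
        have h2 : ((m : ℝ) ^ k)⁻¹ * Z l (A ∩ Iio m) ≤ ((m : ℝ) ^ 2)⁻¹ * 2 ^ l.length :=
          mul_le_mul hp2 (hb _).2 (hb _).1 hp3
        have h3 : 0 ≤ C * P 2 S * ((m : ℝ) ^ 2)⁻¹ := by positivity
        linarith
      · have hS' : m ∈ S := by rw [hS, mem_symmDiff]; tauto
        simp only [f, f', indicator_of_notMem hA, indicator_of_mem hA', indicator_of_mem hS']
        rw [zero_sub, abs_neg, abs_mul, abs_of_nonneg hp, abs_of_nonneg (hb _).1]
        have h2 : ((m : ℝ) ^ k)⁻¹ * Z l (A' ∩ Iio m) ≤ ((m : ℝ) ^ 2)⁻¹ * 2 ^ l.length :=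
          mul_le_mul hp2 (hb _).2 (hb _).1 hp3
        have h3 : 0 ≤ C * P 2 S * ((m : ℝ) ^ 2)⁻¹ := by positivity
        linarith
      · have hnS : m ∉ S := by rw [hS, mem_symmDiff]; tauto
        simp only [f, f', indicator_of_notMem hA, indicator_of_notMem hA',
          indicator_of_notMem hnS]
        rw [sub_zero, abs_zero]
        positivity
    have hsum : Summable fun m : ℕ => 2 ^ l.length * S.indicator (fun m => ((m : ℝ) ^ 2)⁻¹) m +
        C * P 2 S * ((m : ℝ) ^ 2)⁻¹ :=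
      ((summable_ind le_rfl S).mul_left _).add ((summable_pow le_rfl).mul_left _)
    have h1 : Z (k :: l) A - Z (k :: l) A' = ∑' m, (f m - f' m) := (hf.tsum_sub hf').symm
    rw [h1]
    have h2 : Summable fun m => |f m - f' m| :=
      Summable.of_nonneg_of_le (fun m => abs_nonneg _) key hsum
    calc |∑' m, (f m - f' m)| ≤ ∑' m, |f m - f' m| := by
          have := norm_tsum_le_tsum_norm (f := fun m => f m - f' m) (by simpa using h2)
          simpa using this
      _ ≤ ∑' m : ℕ, (2 ^ l.length * S.indicator (fun m => ((m : ℝ) ^ 2)⁻¹) m +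
            C * P 2 S * ((m : ℝ) ^ 2)⁻¹) := h2.tsum_le_tsum key hsum
      _ = 2 ^ l.length * P 2 S + C * P 2 S * ∑' m : ℕ, ((m : ℝ) ^ 2)⁻¹ := by
          rw [Summable.tsum_add ((summable_ind le_rfl S).mul_left _)
            ((summable_pow le_rfl).mul_left _), tsum_mul_left, tsum_mul_left, P]
      _ ≤ 2 ^ l.length * P 2 S + C * P 2 S * 2 := by
          have := tsum_two_le
          have h3 := P_nonneg 2 S
          gcongr
      _ = (2 ^ l.length + 2 * C) * P 2 S := by ring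

/-- Truncation. -/
theorem Z_trunc {l : List ℕ} {C : ℝ} (hC : 0 ≤ C)
    (h : ∀ A A' : Set ℕ, |Z l A - Z l A'| ≤ C * P 2 (symmDiff A A')) (A : Set ℕ) {m : ℕ}
    (hm : 1 ≤ m) : |Z l (A ∩ Iio m) - Z l A| ≤ 2 * C / m := by
  refine (h _ _).trans ?_
  have h1 : symmDiff (A ∩ Iio m) A ⊆ Ici m := by
    intro x hx
    rw [mem_symmDiff] at hx
    rcases hx with ⟨⟨h1, _⟩, h3⟩ | ⟨h1, h3⟩
    · exact absurd h1 h3
    · by_contra hc
      exact h3 ⟨h1, by simpa using hc⟩
  have h2 := (P_mono le_rfl h1).trans (P_Ici_le hm)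
  calc C * P 2 (symmDiff (A ∩ Iio m) A) ≤ C * (2 / m) := by gcongr
    _ = 2 * C / m := by ring

theorem P_sub_le {k : ℕ} (hk : 2 ≤ k) (A A' : Set ℕ) : |P k A - P k A'| ≤ P k (symmDiff A A') := by
  unfold P
  rw [← (summable_ind hk A).tsum_sub (summable_ind hk A')]
  have key : ∀ m : ℕ, |A.indicator (fun m => ((m : ℝ) ^ k)⁻¹) m -
      A'.indicator (fun m => ((m : ℝ) ^ k)⁻¹) m| =
      (symmDiff A A').indicator (fun m => ((m : ℝ) ^ k)⁻¹) m := by
    intro m
    have hp := pow_nonneg' k m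
    by_cases hA : m ∈ A <;> by_cases hA' : m ∈ A'
    · rw [indicator_of_mem hA, indicator_of_mem hA',
        indicator_of_notMem (by rw [mem_symmDiff]; tauto), sub_self, abs_zero]
    · rw [indicator_of_mem hA, indicator_of_notMem hA',
        indicator_of_mem (by rw [mem_symmDiff]; tauto), sub_zero, abs_of_nonneg hp]
    · rw [indicator_of_notMem hA, indicator_of_mem hA',
        indicator_of_mem (by rw [mem_symmDiff]; tauto), zero_sub, abs_neg, abs_of_nonneg hp]
    · rw [indicator_of_notMem hA, indicator_of_notMem hA',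
        indicator_of_notMem (by rw [mem_symmDiff]; tauto), sub_self, abs_zero]
  have h2 : Summable fun m : ℕ => ‖A.indicator (fun m => ((m : ℝ) ^ k)⁻¹) m -
      A'.indicator (fun m => ((m : ℝ) ^ k)⁻¹) m‖ := by
    simp only [Real.norm_eq_abs, key]
    exact summable_ind hk _
  have h3 := norm_tsum_le_tsum_norm h2
  simp only [Real.norm_eq_abs, key] at h3
  exact h3

/-- The main expansion: if two sets agree below `e`, the difference of the values is the difference
of the power sums times the value for the shorter word, up to a smaller error. -/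
theorem Z_main {k : ℕ} {l : List ℕ} (hl : Big (k :: l)) : ∃ C : ℝ, 0 ≤ C ∧
    ∀ (A A' : Set ℕ) (e : ℕ), 1 ≤ e → (∀ m < e, m ∈ A ↔ m ∈ A') →
      |Z (k :: l) A - Z (k :: l) A' - Z l A * (P k A - P k A')| ≤
        C * ((e : ℝ) * ((e : ℝ) ^ k)⁻¹ * P 2 (symmDiff A A')) := by
  obtain ⟨C, hC, h⟩ := Z_lip l hl.tail
  have hk := hl.head
  have hb := Z_bd l hl.tail
  refine ⟨6 * C, by positivity, fun A A' e he hag => ?_⟩
  set S := symmDiff A A' with hS
  have hSe : S ⊆ Ici e := by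
    intro m hm
    by_contra hc
    rw [mem_Ici, not_le] at hc
    rw [hS, mem_symmDiff] at hm
    have := hag m hc
    tauto
  have he' : (1 : ℝ) ≤ e := by exact_mod_cast he
  set f : ℕ → ℝ := fun m => A.indicator (fun m => ((m : ℝ) ^ k)⁻¹ * Z l (A ∩ Set.Iio m)) m
  set f' : ℕ → ℝ := fun m => A'.indicator (fun m => ((m : ℝ) ^ k)⁻¹ * Z l (A' ∩ Set.Iio m)) m
  set g : ℕ → ℝ := fun m => A.indicator (fun m => ((m : ℝ) ^ k)⁻¹) m
  set g' : ℕ → ℝ := fun m => A'.indicator (fun m => ((m : ℝ) ^ k)⁻¹) m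
  have hf : Summable f := Z_summable hl A
  have hf' : Summable f' := Z_summable hl A'
  have hg : Summable g := summable_ind hk A
  have hg' : Summable g' := summable_ind hk A'
  have hPS := P_nonneg 2 S
  have hPSe : P 2 S ≤ 2 / e := (P_mono le_rfl hSe).trans (P_Ici_le he)
  have key : ∀ m : ℕ, |f m - f' m - Z l A * (g m - g' m)| ≤
      C * P 2 S * (Ici e).indicator (fun m => ((m : ℝ) ^ k)⁻¹) m +
        4 * C / e * S.indicator (fun m => ((m : ℝ) ^ k)⁻¹) m := by
    intro m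
    have hp := pow_nonneg' k m
    have hd : |Z l (A ∩ Iio m) - Z l (A' ∩ Iio m)| ≤ C * P 2 S := by
      refine (h _ _).trans ?_
      have := P_mono (k := 2) le_rfl (inter_symmDiff A A' (Iio m))
      gcongr
    rcases lt_or_ge m e with hme | hme
    · have hnS : m ∉ S := fun hm => absurd (hSe hm) (by simpa using hme)
      have hnI : m ∉ Ici e := by simpa using hme
      have hinter : A ∩ Iio m = A' ∩ Iio m := by
        ext x
        simp only [mem_inter_iff, mem_Iio]
        constructor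
        · rintro ⟨h1, h2⟩; exact ⟨(hag x (by omega)).1 h1, h2⟩
        · rintro ⟨h1, h2⟩; exact ⟨(hag x (by omega)).2 h1, h2⟩
      rw [indicator_of_notMem hnS, indicator_of_notMem hnI]
      by_cases hA : m ∈ A
      · have hA' := (hag m hme).1 hA
        simp only [f, f', g, g', indicator_of_mem hA, indicator_of_mem hA', hinter]
        simp
      · have hA' : m ∉ A' := fun h => hA ((hag m hme).2 h)
        simp only [f, f', g, g', indicator_of_notMem hA, indicator_of_notMem hA']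
        simp
    · have hI : m ∈ Ici e := hme
      have hm1 : 1 ≤ m := he.trans hme
      have hme' : (e : ℝ) ≤ m := by exact_mod_cast hme
      rw [indicator_of_mem hI]
      have ht := Z_trunc hC h A hm1
      have ht2 : 2 * C / (m : ℝ) ≤ 2 * C / e := by gcongr
      by_cases hA : m ∈ A <;> by_cases hA' : m ∈ A'
      · have hnS : m ∉ S := by rw [hS, mem_symmDiff]; tauto
        simp only [f, f', g, g', indicator_of_mem hA, indicator_of_mem hA',
          indicator_of_notMem hnS]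
        rw [sub_self, mul_zero, sub_zero, ← mul_sub, abs_mul, abs_of_nonneg hp, mul_zero, add_zero,
          mul_comm]
        gcongr
      · have hS' : m ∈ S := by rw [hS, mem_symmDiff]; tauto
        simp only [f, f', g, g', indicator_of_mem hA, indicator_of_notMem hA',
          indicator_of_mem hS']
        have h1 : ((m : ℝ) ^ k)⁻¹ * Z l (A ∩ Iio m) - 0 - Z l A * (((m : ℝ) ^ k)⁻¹ - 0) =
            ((m : ℝ) ^ k)⁻¹ * (Z l (A ∩ Iio m) - Z l A) := by ring
        rw [h1, abs_mul, abs_of_nonneg hp]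
        have h2 : ((m : ℝ) ^ k)⁻¹ * |Z l (A ∩ Iio m) - Z l A| ≤ ((m : ℝ) ^ k)⁻¹ * (2 * C / e) := by
          gcongr
          exact ht.trans ht2
        have h3 : 0 ≤ C * P 2 S * ((m : ℝ) ^ k)⁻¹ := by positivity
        have h4 : 0 ≤ ((m : ℝ) ^ k)⁻¹ * (2 * C / e) := by positivity
        have h5 : 4 * C / e * ((m : ℝ) ^ k)⁻¹ = 2 * (((m : ℝ) ^ k)⁻¹ * (2 * C / e)) := by ring
        linarith
      · have hS' : m ∈ S := by rw [hS, mem_symmDiff]; tauto
        simp only [f, f', g, g', indicator_of_notMem hA, indicator_of_mem hA',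
          indicator_of_mem hS']
        have h1 : 0 - ((m : ℝ) ^ k)⁻¹ * Z l (A' ∩ Iio m) - Z l A * (0 - ((m : ℝ) ^ k)⁻¹) =
            ((m : ℝ) ^ k)⁻¹ * ((Z l (A ∩ Iio m) - Z l (A' ∩ Iio m)) -
              (Z l (A ∩ Iio m) - Z l A)) := by ring
        rw [h1, abs_mul, abs_of_nonneg hp]
        have h2 : |(Z l (A ∩ Iio m) - Z l (A' ∩ Iio m)) - (Z l (A ∩ Iio m) - Z l A)| ≤
            4 * C / e := by
          refine (abs_sub _ _).trans ?_
          have h6 : C * P 2 S ≤ C * (2 / e) := by gcongr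
          have h7 : 4 * C / (e : ℝ) = C * (2 / e) + 2 * C / e := by ring
          linarith
        have h3 : 0 ≤ C * P 2 S * ((m : ℝ) ^ k)⁻¹ := by positivity
        have h4 : ((m : ℝ) ^ k)⁻¹ *
            |(Z l (A ∩ Iio m) - Z l (A' ∩ Iio m)) - (Z l (A ∩ Iio m) - Z l A)| ≤
            ((m : ℝ) ^ k)⁻¹ * (4 * C / e) := by gcongr
        have h5 : 4 * C / e * ((m : ℝ) ^ k)⁻¹ = ((m : ℝ) ^ k)⁻¹ * (4 * C / e) := by ring
        linarith
      · have hnS : m ∉ S := by rw [hS, mem_symmDiff]; tauto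
        simp only [f, f', g, g', indicator_of_notMem hA, indicator_of_notMem hA',
          indicator_of_notMem hnS]
        rw [sub_self, mul_zero, sub_zero, abs_zero, mul_zero, add_zero]
        positivity
  have hs1 : Summable fun m : ℕ => C * P 2 S * (Ici e).indicator (fun m => ((m : ℝ) ^ k)⁻¹) m :=
    (summable_ind hk _).mul_left _
  have hs2 : Summable fun m : ℕ => 4 * C / e * S.indicator (fun m => ((m : ℝ) ^ k)⁻¹) m :=
    (summable_ind hk _).mul_left _
  have hsum := hs1.add hs2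
  have h1 : Z (k :: l) A - Z (k :: l) A' - Z l A * (P k A - P k A') =
      ∑' m, (f m - f' m - Z l A * (g m - g' m)) := by
    rw [Summable.tsum_sub (hf.sub hf') ((hg.sub hg').mul_left _), hf.tsum_sub hf', tsum_mul_left,
      hg.tsum_sub hg']
    rfl
  rw [h1]
  have h2 : Summable fun m => |f m - f' m - Z l A * (g m - g' m)| :=
    Summable.of_nonneg_of_le (fun m => abs_nonneg _) key hsum
  have hk1 : P k (Ici e) ≤ (e : ℝ) ^ 2 * ((e : ℝ) ^ k)⁻¹ * (2 / e) := by
    refine (P_le_of_ge (S := Ici e) hk he (fun m hm => hm)).trans ?_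
    have := P_Ici_le he
    gcongr
  have hk2 : P k S ≤ (e : ℝ) ^ 2 * ((e : ℝ) ^ k)⁻¹ * P 2 S := P_le_of_ge hk he fun m hm => hSe hm
  have he0 : (e : ℝ) ≠ 0 := by positivity
  calc |∑' m, (f m - f' m - Z l A * (g m - g' m))|
      ≤ ∑' m, |f m - f' m - Z l A * (g m - g' m)| := by
        have := norm_tsum_le_tsum_norm (f := fun m => f m - f' m - Z l A * (g m - g' m))
          (by simpa using h2)
        simpa using this
    _ ≤ ∑' m : ℕ, (C * P 2 S * (Ici e).indicator (fun m => ((m : ℝ) ^ k)⁻¹) m +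
          4 * C / e * S.indicator (fun m => ((m : ℝ) ^ k)⁻¹) m) := h2.tsum_le_tsum key hsum
    _ = C * P 2 S * P k (Ici e) + 4 * C / e * P k S := by
        rw [hs1.tsum_add hs2, tsum_mul_left, tsum_mul_left]
        rfl
    _ ≤ C * P 2 S * ((e : ℝ) ^ 2 * ((e : ℝ) ^ k)⁻¹ * (2 / e)) +
          4 * C / e * ((e : ℝ) ^ 2 * ((e : ℝ) ^ k)⁻¹ * P 2 S) := by gcongr
    _ = 6 * C * ((e : ℝ) * ((e : ℝ) ^ k)⁻¹ * P 2 S) := by
        field_simp
        ring

end Pool.Agent.H8.TS
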